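import Pool.Agent.Lib.MP_8a819d_co.S4

/-!
# MP_8a819d_co: placing all leaves, transport
-/

set_option autoImplicit false
set_option linter.unusedSectionVars false
set_option linter.unusedVariables false

namespace SSq

open Finset

section ext

variable {V : Type} [Fintype V] [DecidableEq V]

/-- placing the leaves at the vertices of `U` -/
theorem St.extend {T : Rt V} {W : Finset V} {f : V → ℕ} {M : ℕ} (h : St T W f M)
    (hodd : ∀ u ∈ W, f u % 2 = 1) (hp : ∀ v, T.p v ∈ W) (U : Finset V) : U ⊆ W →
    ∃ (f' : V → ℕ) (M' : ℕ), (∀ v ∈ W, f' v = f v) ∧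
      St T (W ∪ univ.filter fun v => v ∉ W ∧ T.p v ∈ U) f' M' ∧
      M' ≤ M + 2 * (univ.filter fun v => v ∉ W ∧ T.p v ∈ U).card + 2 * ∑ u ∈ U, f u := by
  induction U using Finset.induction_on with
  | empty =>
    intro _
    refine ⟨f, M, fun _ _ => rfl, ?_, ?_⟩
    · have : (univ.filter fun v => v ∉ W ∧ T.p v ∈ (∅ : Finset V)) = ∅ := by
        simp
      rw [this, union_empty]
      exact h
    · simp
  | insert u U hu ih =>
    intro hU
    obtain ⟨f', M', h1, h2, h3⟩ := ih (fun x hx => hU (mem_insert_of_mem hx))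
    have huW : u ∈ W := hU (mem_insert_self _ _)
    set L := univ.filter fun v => v ∉ W ∧ T.p v = u with hL
    set L' := univ.filter fun v => v ∉ W ∧ T.p v ∈ U with hL'
    have hfu : f' u = f u := h1 u huW
    obtain ⟨f'', M'', h4, h5, h6⟩ := St.leaves (u := u) L (W ∪ L') f' M' h2 (mem_union_left _ huW)
      (by rw [hfu]; exact hodd u huW) (by
        intro v hv
        rw [hL, mem_filter] at hv
        refine ⟨?_, hv.2.2⟩
        rw [mem_union]
        rintro (h7 | h7)
        · exact hv.2.1 h7
        · rw [hL', mem_filter] at h7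
          rw [hv.2.2] at h7
          exact hu h7.2.2)
    have hun : (univ.filter fun v => v ∉ W ∧ T.p v ∈ insert u U) = L' ∪ L := by
      ext v
      rw [hL, hL']
      simp only [mem_filter, mem_univ, true_and, mem_insert, mem_union]
      tauto
    have hdis : Disjoint L' L := by
      rw [disjoint_left]
      intro v hv hv'
      rw [hL', mem_filter] at hv
      rw [hL, mem_filter] at hv'
      rw [hv'.2.2] at hv
      exact hu hv.2.2
    refine ⟨f'', M'', fun v hv => (h4 v (mem_union_left _ hv)).trans (h1 v hv), ?_, ?_⟩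
    · rw [hun, ← union_assoc]
      exact h5
    · rw [hun, card_union_of_disjoint hdis, sum_insert hu]
      rw [hfu] at h6
      omega

/-- full numberings from numberings of the inner tree -/
theorem St.full {T : Rt V} {W : Finset V} {f : V → ℕ} {M : ℕ} (h : St T W f M)
    (hodd : ∀ u ∈ W, f u % 2 = 1) (hp : ∀ v, T.p v ∈ W)
    (hM : M + 2 * ∑ u ∈ W.erase T.r, f u + 1 ≤ 2 * W.card + 2 * (univ.filter fun v => v ∉ W ∧ T.p v = T.r).card) :
    ∃ f' : V → ℕ, used T univ f' = Icc 1 (2 * Fintype.card V - 1) := by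
  obtain ⟨f₁, M₁, h1, h2, h3⟩ := h.extend hodd hp (W.erase T.r) (erase_subset _ _)
  set L₁ := univ.filter fun v => v ∉ W ∧ T.p v ∈ W.erase T.r with hL₁
  set R := univ.filter fun v => v ∉ W ∧ T.p v = T.r with hR
  have hcard : Fintype.card V = W.card + L₁.card + R.card := by
    rw [← card_univ, ← card_union_of_disjoint, ← card_union_of_disjoint]
    · congr 1
      ext v
      rw [hL₁, hR]
      simp only [mem_univ, mem_union, mem_filter, true_and, mem_erase, true_iff]
      by_cases h4 : v ∈ W
      · exact Or.inl (Or.inl h4)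
      · by_cases h5 : T.p v = T.r
        · exact Or.inr ⟨h4, h5⟩
        · exact Or.inl (Or.inr ⟨h4, h5, hp v⟩)
    · rw [disjoint_left]
      intro v hv hv'
      rw [hR, mem_filter] at hv'
      rcases mem_union.1 hv with h4 | h4
      · exact hv'.2.1 h4
      · rw [hL₁, mem_filter, mem_erase] at h4
        exact h4.2.2.1 hv'.2.2
    · rw [disjoint_left]
      intro v hv hv'
      rw [hL₁, mem_filter] at hv'
      exact hv'.2.1 hv
  obtain ⟨f', -, h4⟩ := h2.fill (by
    intro v hv
    by_contra h5
    apply hv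
    by_cases h6 : v ∈ W
    · exact mem_union_left _ h6
    · refine mem_union_right _ ?_
      rw [hL₁, mem_filter, mem_erase]
      exact ⟨mem_univ _, h6, h5, hp v⟩) (by omega)
  exact ⟨f', h4⟩

end ext

section transport

variable {V : Type} [Fintype V] [LinearOrder V]

theorem exists_small_on (T : Rt V) (W : Finset V) (hr : T.r ∈ W) (hp : ∀ v, T.p v ∈ W) :
    ∃ (f : V → ℕ) (M : ℕ), St T W f M ∧ (∀ v ∈ W, f v % 2 = 1) ∧
    (∀ v ∈ W, f v ≤ 1024 * W.card ^ 3) ∧ M ≤ 1024 * W.card ^ 3 := by
  let T₀ : Rt {v // v ∈ W} :=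
    { r := ⟨T.r, hr⟩
      p := fun v => ⟨T.p v, hp v⟩
      dep := fun v => T.dep v
      pr := Subtype.ext T.pr
      dr := T.dr
      dp := fun v hv => T.dp v (fun h => hv (Subtype.ext h)) }
  obtain ⟨f₀, M, h1, h2, h3, h4⟩ := exists_small T₀
  rw [Fintype.card_coe] at h3 h4
  let f : V → ℕ := fun v => if hv : v ∈ W then f₀ ⟨v, hv⟩ else 0
  have hf : ∀ v (hv : v ∈ W), f v = f₀ ⟨v, hv⟩ := fun v hv => by
    simp only [f, dif_pos hv]
  have hused : used T W f = used T₀ univ f₀ := by
    unfold used
    ext x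
    simp only [mem_union, mem_image, mem_erase, mem_univ, true_and, and_true]
    constructor
    · rintro (⟨v, hv, rfl⟩ | ⟨v, ⟨hv1, hv2⟩, rfl⟩)
      · exact Or.inl ⟨⟨v, hv⟩, (hf v hv).symm⟩
      · refine Or.inr ⟨⟨v, hv2⟩, fun h => hv1 (congrArg Subtype.val h), ?_⟩
        rw [hf v hv2, hf _ (hp v)]
    · rintro (⟨v, rfl⟩ | ⟨v, hv, rfl⟩)
      · exact Or.inl ⟨v, v.2, hf v v.2⟩
      · refine Or.inr ⟨v, ⟨fun h => hv (Subtype.ext h), v.2⟩, ?_⟩
        rw [hf v v.2, hf _ (hp v)]
  refine ⟨f, M, ?_, ?_, ?_, h4⟩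
  · constructor
    · exact hr
    · intro v _
      exact hp v
    · rw [hf _ hr]
      exact h1.fr
    · rw [hused]
      have := h1.card
      rw [card_univ, Fintype.card_coe] at this
      exact this
    · rw [hused]
      exact h1.sub
    · exact h1.odd
    · rw [hused]
      exact h1.rank
  · intro v hv
    rw [hf v hv]
    exact h2 _
  · intro v hv
    rw [hf v hv]
    exact h3 _

end transport

section graph

variable {n : ℕ} {G : SimpleGraph (Fin n)}

theorem exists_par (hG : G.IsTree) (r : Fin n) (v : Fin n) (hv : v ≠ r) :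
    ∃ u, G.Adj v u ∧ G.dist u r + 1 = G.dist v r := by
  obtain ⟨w, hw⟩ := hG.connected.exists_walk_length_eq_dist v r
  cases w with
  | nil => exact absurd rfl hv
  | @cons _ u _ h p =>
    refine ⟨u, h, ?_⟩
    rw [SimpleGraph.Walk.length_cons] at hw
    have h1 := SimpleGraph.dist_le p
    have h2 := hG.connected.dist_triangle (u := v) (v := u) (w := r)
    have h3 : G.dist v u = 1 := SimpleGraph.dist_eq_one_iff_adj.2 h
    omega

open Classical in
/-- the rooted tree of a tree -/
noncomputable def toRt (hG : G.IsTree) (r : Fin n) : Rt (Fin n) where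
  r := r
  p v := if hv : v = r then r else Classical.choose (exists_par hG r v hv)
  dep v := G.dist v r
  pr := by simp
  dr := by simp
  dp v hv := by
    rw [dif_neg hv]
    exact (Classical.choose_spec (exists_par hG r v hv)).2

theorem toRt_adj (hG : G.IsTree) (r : Fin n) {v : Fin n} (hv : v ≠ r) : G.Adj v ((toRt hG r).p v) := by
  unfold toRt
  simp only [dif_neg hv]
  exact (Classical.choose_spec (exists_par hG r v hv)).1

theorem edge_par (hG : G.IsTree) (r : Fin n) (e : Sym2 (Fin n)) (he : e ∈ G.edgeSet) :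
    ∃ v, v ≠ r ∧ e = s(v, (toRt hG r).p v) := by
  classical
  have h1 : (univ.erase r).image (fun v => s(v, (toRt hG r).p v)) = G.edgeFinset := by
    apply eq_of_subset_of_card_le
    · intro e he
      rw [mem_image] at he
      obtain ⟨v, hv, rfl⟩ := he
      rw [SimpleGraph.mem_edgeFinset, SimpleGraph.mem_edgeSet]
      exact toRt_adj hG r (mem_erase.1 hv).1
    · rw [card_image_of_injOn]
      · have h2 := hG.card_edgeFinset
        rw [card_erase_of_mem (mem_univ _), card_univ]
        omega
      · intro v hv w hw h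
        have hv' : v ≠ r := (mem_erase.1 (mem_coe.1 hv)).1
        have hw' : w ≠ r := (mem_erase.1 (mem_coe.1 hw)).1
        have d1 := (toRt hG r).dp v hv'
        have d2 := (toRt hG r).dp w hw'
        simp only [Sym2.eq_iff] at h
        rcases h with ⟨h, -⟩ | ⟨h3, h4⟩
        · exact h
        · rw [h4] at d1
          rw [← h3] at d2
          omega
  rw [← SimpleGraph.mem_edgeFinset, ← h1, mem_image] at he
  obtain ⟨v, hv, rfl⟩ := he
  exact ⟨v, (mem_erase.1 hv).1, rfl⟩

/-- simply sequential graphs, on `Fin n` -/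
def Simply {n : ℕ} (G : SimpleGraph (Fin n)) : Prop :=
  ∃ F : Fin n ⊕ G.edgeSet → ℕ,
    Function.Injective F ∧
    (∀ (e : G.edgeSet) (u v : Fin n), e.val = s(u, v) →
      F (Sum.inr e) = ((F (Sum.inl u) : ℤ) - (F (Sum.inl v) : ℤ)).natAbs) ∧
    Set.range F = Set.Icc 1 (n + Nat.card G.edgeSet)

theorem simply_of_used (hG : G.IsTree) (r : Fin n) (f : Fin n → ℕ)
    (h : used (toRt hG r) univ f = Icc 1 (2 * Fintype.card (Fin n) - 1)) : Simply G := by
  classical
  have hcard : Nat.card G.edgeSet + 1 = n := by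
    have h2 := hG.card_edgeFinset
    rw [Fintype.card_fin, SimpleGraph.edgeFinset, Set.toFinset_card] at h2
    rw [Nat.card_eq_fintype_card]
    exact h2
  have hsym : ∀ a b : Fin n, ad (f a) (f b) = ad (f b) (f a) := by
    intro a b
    unfold ad
    omega
  let g : Sym2 (Fin n) → ℕ := Sym2.lift ⟨fun a b => ad (f a) (f b), hsym⟩
  let F : Fin n ⊕ G.edgeSet → ℕ := Sum.elim f (fun e => g e.val)
  have hrange : Set.range F = Set.Icc 1 (n + Nat.card G.edgeSet) := by
    have h3 : n + Nat.card G.edgeSet = 2 * Fintype.card (Fin n) - 1 := by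
      rw [Fintype.card_fin]
      omega
    rw [h3, ← coe_Icc, ← h]
    ext x
    unfold used
    simp only [Set.mem_range, coe_union, Set.mem_union, mem_coe, mem_image, mem_univ, true_and,
      mem_erase, and_true, Sum.exists]
    constructor
    · rintro (⟨v, rfl⟩ | ⟨e, rfl⟩)
      · exact Or.inl ⟨v, rfl⟩
      · obtain ⟨v, hv, he⟩ := edge_par hG r e.val e.2
        refine Or.inr ⟨v, hv, ?_⟩
        show _ = g e.val
        rw [he]
        rfl
    · rintro (⟨v, rfl⟩ | ⟨v, hv, rfl⟩)
      · exact Or.inl ⟨v, rfl⟩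
      · refine Or.inr ⟨⟨s(v, (toRt hG r).p v), ?_⟩, rfl⟩
        rw [SimpleGraph.mem_edgeSet]
        exact toRt_adj hG r hv
  refine ⟨F, ?_, ?_, hrange⟩
  · have hfin : Fintype.card (Fin n ⊕ G.edgeSet) = n + Nat.card G.edgeSet := by
      rw [Fintype.card_sum, Fintype.card_fin, Nat.card_eq_fintype_card]
    have h4 : (univ.image F).card = (univ : Finset (Fin n ⊕ G.edgeSet)).card := by
      have h5 : (univ.image F) = Icc 1 (n + Nat.card G.edgeSet) := by
        apply coe_injective
        rw [coe_image, coe_univ, Set.image_univ, hrange, coe_Icc]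
      rw [h5, Nat.card_Icc, card_univ, hfin]
      omega
    intro a b hab
    exact card_image_iff.1 h4 (mem_coe.2 (mem_univ a)) (mem_coe.2 (mem_univ b)) hab
  · intro e u v he
    show g e.val = _
    rw [he]
    rfl

end graph

end SSq
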