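import Pool.Agent.Lib.MP_8a819d_co.S5

/-!
# MP_8a819d_co: trees with many leaves
-/

set_option autoImplicit false
set_option linter.unusedSectionVars false
set_option linter.unusedVariables false

namespace SSq

open Finset

variable {n : ℕ} {G : SimpleGraph (Fin n)}

theorem par_internal (hG : G.IsTree) (r : Fin n) {v : Fin n} (hv : v ≠ r)
    (hq : (toRt hG r).p v ≠ r) : 2 ≤ (G.neighborSet ((toRt hG r).p v)).ncard := by
  set q := (toRt hG r).p v with hqdef
  have h1 : G.Adj v q := toRt_adj hG r hv
  have h2 : G.Adj q ((toRt hG r).p q) := toRt_adj hG r hq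
  have d1 := (toRt hG r).dp v hv
  have d2 := (toRt hG r).dp q hq
  have hne : v ≠ (toRt hG r).p q := by
    intro h
    rw [← h] at d2
    rw [← hqdef] at d1
    omega
  have h3 : ({v, (toRt hG r).p q} : Set (Fin n)) ⊆ G.neighborSet q := by
    intro x hx
    rcases hx with rfl | hx
    · exact h1.symm
    · rw [Set.mem_singleton_iff] at hx
      rw [hx]
      exact h2
  calc 2 = ({v, (toRt hG r).p q} : Set (Fin n)).ncard := (Set.ncard_pair hne).symm
    _ ≤ _ := Set.ncard_le_ncard h3 (Set.toFinite _)

theorem main_one (hG : G.IsTree) (r : Fin n)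
    (hr : 1024 * {v | 2 ≤ (G.neighborSet v).ncard}.ncard ^ 4 ≤
      {v | G.Adj r v ∧ (G.neighborSet v).ncard = 1}.ncard) : Simply G := by
  classical
  set I : Finset (Fin n) := univ.filter fun v => 2 ≤ (G.neighborSet v).ncard with hI
  have hIc : {v | 2 ≤ (G.neighborSet v).ncard}.ncard = I.card := by
    rw [← Set.ncard_coe_finset]
    congr 1
    ext v
    simp [hI]
  set R : Finset (Fin n) := univ.filter fun v => G.Adj r v ∧ (G.neighborSet v).ncard = 1 with hR
  have hRc : {v | G.Adj r v ∧ (G.neighborSet v).ncard = 1}.ncard = R.card := by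
    rw [← Set.ncard_coe_finset]
    congr 1
    ext v
    simp [hR]
  rw [hIc, hRc] at hr
  set T := toRt hG r with hT
  have hTr : T.r = r := rfl
  have hn : 1 ≤ n := Fin.pos r
  rcases Nat.eq_zero_or_pos I.card with h0 | h0
  · -- no inner vertices
    have hpar : ∀ v, v ∉ ({r} : Finset (Fin n)) → T.p v = T.r := by
      intro v hv
      rw [mem_singleton] at hv
      by_contra hq
      have h1 := par_internal hG r hv hq
      rw [card_eq_zero] at h0
      have h2 : T.p v ∈ I := by
        rw [hI, mem_filter]
        exact ⟨mem_univ _, h1⟩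
      rw [h0] at h2
      exact notMem_empty _ h2
    have hused : used T {r} (fun _ => 1) = {1} := by
      unfold used
      rw [hTr]
      simp
    have hSt : St T {r} (fun _ => 1) 1 := by
      constructor
      · rw [hTr]; exact mem_singleton_self _
      · intro v hv
        rw [mem_singleton] at hv ⊢
        rw [hv]
        exact T.pr
      · rfl
      · rw [hused, card_singleton, card_singleton]
      · intro x hx
        rw [hused, mem_singleton] at hx
        omega
      · rfl
      · intro x hx
        rw [hused, mem_singleton] at hx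
        subst hx
        rw [hused]
        rfl
    obtain ⟨f, -, hf⟩ := hSt.fill hpar (by rw [Fintype.card_fin]; omega)
    exact simply_of_used hG r f hf
  · have hRpos : 2 ≤ R.card := by
      have : 1 ≤ I.card ^ 4 := Nat.one_le_pow _ _ h0
      omega
    have hRI : ∀ v ∈ R, v ∉ I ∧ T.p v = r := by
      intro v hv
      rw [hR, mem_filter] at hv
      refine ⟨?_, ?_⟩
      · rw [hI, mem_filter]
        intro h
        have := h.2
        omega
      · have hvr : v ≠ r := fun h => G.irrefl (h ▸ hv.2.1)
        have h1 : G.Adj v (T.p v) := toRt_adj hG r hvr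
        obtain ⟨x, hx⟩ := Set.ncard_eq_one.1 hv.2.2
        have h2 : T.p v ∈ G.neighborSet v := h1
        have h3 : r ∈ G.neighborSet v := hv.2.1.symm
        rw [hx, Set.mem_singleton_iff] at h2 h3
        rw [h2, h3]
    have hrI : r ∈ I := by
      rw [hI, mem_filter]
      refine ⟨mem_univ _, hRpos.trans ?_⟩
      rw [← Set.ncard_coe_finset]
      refine Set.ncard_le_ncard ?_ (Set.toFinite _)
      intro v hv
      rw [mem_coe, hR, mem_filter] at hv
      exact hv.2.1
    have hpI : ∀ v, T.p v ∈ I := by
      intro v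
      by_cases hq : T.p v = r
      · rw [hq]; exact hrI
      · by_cases hv : v = r
        · exfalso
          apply hq
          rw [hv]
          exact T.pr
        · rw [hI, mem_filter]
          exact ⟨mem_univ _, par_internal hG r hv hq⟩
    obtain ⟨f, M, h1, h2, h3, h4⟩ := exists_small_on T I hrI hpI
    have hRsub : R ⊆ univ.filter fun v => v ∉ I ∧ T.p v = T.r := by
      intro v hv
      rw [mem_filter]
      exact ⟨mem_univ _, hRI v hv⟩
    have hRle := card_le_card hRsub
    have hsum : ∑ u ∈ I.erase T.r, f u ≤ (I.card - 1) * (1024 * I.card ^ 3) := by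
      have h5 : ∀ u ∈ I.erase T.r, f u ≤ 1024 * I.card ^ 3 := fun u hu => h3 u (mem_of_mem_erase hu)
      have h6 := sum_le_card_nsmul _ _ _ h5
      have h7 : (I.erase T.r).card = I.card - 1 := by
        rw [hTr]
        exact card_erase_of_mem hrI
      rw [h7, smul_eq_mul] at h6
      exact h6
    obtain ⟨f', hf'⟩ := h1.full h2 hpI (by
      obtain ⟨k, hk⟩ : ∃ k, I.card = k + 1 := ⟨I.card - 1, by omega⟩
      rw [hk] at hr hsum h4 ⊢
      rw [Nat.add_sub_cancel] at hsum
      have h5 : 1 ≤ (k + 1) ^ 3 := Nat.one_le_pow _ _ (by omega)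
      have h6 : (k + 1) ^ 4 = k * (k + 1) ^ 3 + (k + 1) ^ 3 := by ring
      have h7 : k * (1024 * (k + 1) ^ 3) = 1024 * (k * (k + 1) ^ 3) := by ring
      rw [h6] at hr
      rw [h7] at hsum
      omega)
    exact simply_of_used hG r f' hf'

theorem main_two (hG : G.IsTree)
    (hL : 1024 * {v | 2 ≤ (G.neighborSet v).ncard}.ncard ^ 5 ≤
      {v | (G.neighborSet v).ncard = 1}.ncard) : Simply G := by
  classical
  set I : Finset (Fin n) := univ.filter fun v => 2 ≤ (G.neighborSet v).ncard with hI
  have hIc : {v | 2 ≤ (G.neighborSet v).ncard}.ncard = I.card := by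
    rw [← Set.ncard_coe_finset]
    congr 1
    ext v
    simp [hI]
  rcases Nat.eq_zero_or_pos I.card with h0 | h0
  · obtain ⟨r⟩ := hG.connected.nonempty
    refine main_one hG r ?_
    rw [hIc, h0]
    simp
  · obtain ⟨r, hr⟩ := card_pos.1 h0
    set L : Finset (Fin n) := univ.filter fun v => (G.neighborSet v).ncard = 1 with hLdef
    have hLc : {v | (G.neighborSet v).ncard = 1}.ncard = L.card := by
      rw [← Set.ncard_coe_finset]
      congr 1
      ext v
      simp [hLdef]
    rw [hIc, hLc] at hL
    set T := toRt hG r with hT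
    have hmap : ∀ v ∈ L, T.p v ∈ I := by
      intro v hv
      by_cases hq : T.p v = r
      · rw [hq]; exact hr
      · by_cases hvr : v = r
        · exfalso
          apply hq
          rw [hvr]
          exact T.pr
        · rw [hI, mem_filter]
          exact ⟨mem_univ _, par_internal hG r hvr hq⟩
    have hpig : ∃ q ∈ I, 1024 * I.card ^ 4 ≤ (L.filter fun v => T.p v = q).card := by
      refine exists_le_card_fiber_of_mul_le_card_of_maps_to hmap ⟨r, hr⟩ ?_
      calc I.card * (1024 * I.card ^ 4) = 1024 * I.card ^ 5 := by ring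
        _ ≤ L.card := hL
    obtain ⟨q, hq, hqc⟩ := hpig
    refine main_one hG q ?_
    rw [hIc]
    refine hqc.trans ?_
    rw [← Set.ncard_coe_finset]
    refine Set.ncard_le_ncard ?_ (Set.toFinite _)
    intro v hv
    rw [mem_coe, mem_filter, hLdef, mem_filter] at hv
    obtain ⟨⟨-, h1⟩, h2⟩ := hv
    refine ⟨?_, h1⟩
    have hvr : v ≠ r := by
      intro h
      rw [h] at h1
      rw [hI, mem_filter] at hr
      have := hr.2
      omega
    have h3 : G.Adj v (T.p v) := toRt_adj hG r hvr
    rw [h2] at h3
    exact h3.symm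

end SSq
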