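import Mathlib

/-!
# MP_8a819d_co: simply sequential numberings, placing the leaves
-/

set_option autoImplicit false

namespace SSq

open Finset

variable {V : Type} [DecidableEq V]

/-- a rooted tree, given by the parents and the depths -/
structure Rt (V : Type) where
  r : V
  p : V → V
  dep : V → ℕ
  pr : p r = r
  dr : dep r = 0
  dp : ∀ v, v ≠ r → dep (p v) + 1 = dep v

/-- absolute value of the difference -/
def ad (a b : ℕ) : ℕ := ((a : ℤ) - (b : ℤ)).natAbs

/-- all labels of the vertices of `W` and of the edges to their parents -/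
def used (T : Rt V) (W : Finset V) (f : V → ℕ) : Finset ℕ :=
  W.image f ∪ (W.erase T.r).image fun v => ad (f v) (f (T.p v))

/-- `f` is a partial numbering on `W`, with labels at most `M`, the `i`-th smallest label has the parity of `i` -/
structure St (T : Rt V) (W : Finset V) (f : V → ℕ) (M : ℕ) : Prop where
  rW : T.r ∈ W
  pW : ∀ v ∈ W, T.p v ∈ W
  fr : f T.r = 1
  card : (used T W f).card + 1 = 2 * W.card
  sub : ∀ x ∈ used T W f, 1 ≤ x ∧ x ≤ M
  odd : M % 2 = 1
  rank : ∀ x ∈ used T W f, ((used T W f).filter (· ≤ x)).card % 2 = x % 2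

theorem used_congr (T : Rt V) (W : Finset V) {f g : V → ℕ} (hp : ∀ v ∈ W, T.p v ∈ W)
    (h : ∀ v ∈ W, f v = g v) : used T W f = used T W g := by
  unfold used
  congr 1
  · exact image_congr fun v hv => h v hv
  · refine image_congr fun v hv => ?_
    have hv' : v ∈ W := mem_of_mem_erase hv
    show ad (f v) (f (T.p v)) = ad (g v) (g (T.p v))
    rw [h v hv', h _ (hp v hv')]

theorem f_mem_used {T : Rt V} {W : Finset V} {f : V → ℕ} {v : V} (hv : v ∈ W) : f v ∈ used T W f :=
  mem_union_left _ (mem_image_of_mem _ hv)

/-- adding a block of `j` leaves at `u`, `j` odd, `j ≤ f u`, `f u` odd -/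
theorem St.block {T : Rt V} {W : Finset V} {f : V → ℕ} {M : ℕ} (h : St T W f M) {u : V} (hu : u ∈ W)
    (hc : f u % 2 = 1) (L : Finset V) (hL : ∀ v ∈ L, v ∉ W ∧ T.p v = u) (hodd : L.card % 2 = 1)
    (hle : L.card ≤ f u) :
    ∃ f' : V → ℕ, (∀ v ∈ W, f' v = f v) ∧ St T (W ∪ L) f' (M + f u + L.card) := by
  set c := f u with hcdef
  set j := L.card with hj
  let e := L.equivFin
  let f' : V → ℕ := fun v => if hv : v ∈ L then M + 1 + c + (e ⟨v, hv⟩ : ℕ) else f v
  have hW : ∀ v ∈ W, f' v = f v := by
    intro v hv
    have : v ∉ L := fun hvL => (hL v hvL).1 hv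
    simp only [f', dif_neg this]
  have hfL : ∀ v (hv : v ∈ L), f' v = M + 1 + c + (e ⟨v, hv⟩ : ℕ) := by
    intro v hv
    simp only [f', dif_pos hv]
  have hrL : T.r ∉ L := fun hr => (hL _ hr).1 h.rW
  have heL : ∀ v (hv : v ∈ L), ad (f' v) (f' (T.p v)) = M + 1 + (e ⟨v, hv⟩ : ℕ) := by
    intro v hv
    rw [hfL v hv, (hL v hv).2, hW u hu, ← hcdef]
    unfold ad
    omega
  have hlt : ∀ v (hv : v ∈ L), (e ⟨v, hv⟩ : ℕ) < j := fun v hv => (e ⟨v, hv⟩).2
  have hU : used T (W ∪ L) f' = used T W f ∪ Icc (M + 1) (M + j) ∪ Icc (M + 1 + c) (M + c + j) := by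
    have h1 : used T (W ∪ L) f' = used T W f' ∪ (L.image f' ∪ L.image fun v => ad (f' v) (f' (T.p v))) := by
      unfold used
      rw [image_union, erase_union_distrib, image_union, erase_eq_of_notMem hrL]
      ext x
      simp only [mem_union]
      tauto
    have h2 : L.image f' = Icc (M + 1 + c) (M + c + j) := by
      ext x
      rw [mem_image, mem_Icc]
      constructor
      · rintro ⟨v, hv, rfl⟩
        rw [hfL v hv]
        have := hlt v hv
        omega
      · rintro ⟨hx1, hx2⟩
        have hx3 : x - (M + 1 + c) < j := by omega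
        refine ⟨(e.symm ⟨x - (M + 1 + c), hx3⟩ : L), (e.symm _).2, ?_⟩
        rw [hfL _ (e.symm ⟨x - (M + 1 + c), hx3⟩).2]
        have : e ⟨((e.symm ⟨x - (M + 1 + c), hx3⟩ : L) : V), (e.symm ⟨x - (M + 1 + c), hx3⟩).2⟩ =
            ⟨x - (M + 1 + c), hx3⟩ := e.apply_symm_apply _
        rw [this]
        show M + 1 + c + (x - (M + 1 + c)) = x
        omega
    have h3 : (L.image fun v => ad (f' v) (f' (T.p v))) = Icc (M + 1) (M + j) := by
      ext x
      rw [mem_image, mem_Icc]
      constructor
      · rintro ⟨v, hv, rfl⟩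
        rw [heL v hv]
        have := hlt v hv
        omega
      · rintro ⟨hx1, hx2⟩
        have hx3 : x - (M + 1) < j := by omega
        refine ⟨(e.symm ⟨x - (M + 1), hx3⟩ : L), (e.symm _).2, ?_⟩
        rw [heL _ (e.symm ⟨x - (M + 1), hx3⟩).2]
        have : e ⟨((e.symm ⟨x - (M + 1), hx3⟩ : L) : V), (e.symm ⟨x - (M + 1), hx3⟩).2⟩ =
            ⟨x - (M + 1), hx3⟩ := e.apply_symm_apply _
        rw [this]
        show M + 1 + (x - (M + 1)) = x
        omega
    rw [h1, h2, h3, used_congr T W h.pW hW]
    ext x
    simp only [mem_union]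
    tauto
  set U := used T W f with hUdef
  have hUM : ∀ x ∈ U, x ≤ M := fun x hx => (h.sub x hx).2
  have hd1 : Disjoint U (Icc (M + 1) (M + j)) := by
    rw [disjoint_left]
    intro x hx hx2
    have := hUM x hx
    rw [mem_Icc] at hx2
    omega
  have hd2 : Disjoint (U ∪ Icc (M + 1) (M + j)) (Icc (M + 1 + c) (M + c + j)) := by
    rw [disjoint_left]
    intro x hx hx2
    rw [mem_Icc] at hx2
    rcases mem_union.1 hx with hx | hx
    · have := hUM x hx
      omega
    · rw [mem_Icc] at hx
      omega
  have hWL : Disjoint W L := by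
    rw [disjoint_left]
    intro v hv hv2
    exact (hL v hv2).1 hv
  have hcU := h.card
  have hfilt : ∀ x, ((used T (W ∪ L) f').filter (· ≤ x)).card = (U.filter (· ≤ x)).card +
      ((Icc (M + 1) (M + j)).filter (· ≤ x)).card + ((Icc (M + 1 + c) (M + c + j)).filter (· ≤ x)).card := by
    intro x
    rw [hU, filter_union, filter_union, card_union_of_disjoint, card_union_of_disjoint]
    · exact disjoint_filter_filter hd1
    · rw [← filter_union]
      exact disjoint_filter_filter hd2
  have hfU : ∀ x, M ≤ x → (U.filter (· ≤ x)).card = U.card := by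
    intro x hx
    rw [filter_true_of_mem]
    intro y hy
    exact (hUM y hy).trans hx
  have hfI : ∀ a b x : ℕ, ((Icc a b).filter (· ≤ x)).card = min b x + 1 - a := by
    intro a b x
    have : (Icc a b).filter (· ≤ x) = Icc a (min b x) := by
      ext y
      simp only [mem_filter, mem_Icc, le_min_iff]
      tauto
    rw [this, Nat.card_Icc]
  refine ⟨f', hW, ?_⟩
  have hodd2 := h.odd
  have hcU2 : U.card + 1 = 2 * W.card := hcU
  constructor
  · exact mem_union_left _ h.rW
  · intro v hv
    rcases mem_union.1 hv with hv | hv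
    · exact mem_union_left _ (h.pW v hv)
    · rw [(hL v hv).2]
      exact mem_union_left _ hu
  · rw [hW _ h.rW, h.fr]
  · rw [hU, card_union_of_disjoint hd2, card_union_of_disjoint hd1, card_union_of_disjoint hWL,
      Nat.card_Icc, Nat.card_Icc]
    omega
  · intro x hx
    rw [hU] at hx
    rcases mem_union.1 hx with hx | hx
    · rcases mem_union.1 hx with hx | hx
      · have := h.sub x hx
        omega
      · rw [mem_Icc] at hx
        omega
    · rw [mem_Icc] at hx
      omega
  · omega
  · intro x hx
    rw [hfilt x, hfI, hfI]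
    rw [hU] at hx
    rcases mem_union.1 hx with hx | hx
    · rcases mem_union.1 hx with hx | hx
      · have h1 := h.sub x hx
        have h2 := h.rank x hx
        have h3 : (U.filter (· ≤ x)).card % 2 = x % 2 := h2
        omega
      · rw [mem_Icc] at hx
        rw [hfU x (by omega)]
        omega
    · rw [mem_Icc] at hx
      rw [hfU x (by omega)]
      omega

/-- adding any number of leaves at `u` -/
theorem St.leaves {T : Rt V} {u : V} (L : Finset V) : ∀ (W : Finset V) (f : V → ℕ) (M : ℕ),
    St T W f M → u ∈ W → f u % 2 = 1 → (∀ v ∈ L, v ∉ W ∧ T.p v = u) →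
    ∃ (f' : V → ℕ) (M' : ℕ), (∀ v ∈ W, f' v = f v) ∧ St T (W ∪ L) f' M' ∧
      M' ≤ M + 2 * L.card + 2 * f u := by
  induction L using Finset.strongInduction with
  | H L ih =>
    intro W f M h hu hc hL
    rcases Nat.eq_zero_or_pos L.card with h0 | hpos
    · rw [card_eq_zero] at h0
      subst h0
      refine ⟨f, M, fun _ _ => rfl, ?_, by omega⟩
      rw [union_empty]
      exact h
    · -- choose the size of the first block
      have hc1 : 1 ≤ f u := by omega
      obtain ⟨k, hk1, hk2, hk3, hk4⟩ : ∃ k, k % 2 = 1 ∧ k ≤ L.card ∧ k ≤ f u ∧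
          (k = f u ∨ k = L.card ∨ (k + 1 = 2 ∧ L.card % 2 = 0 ∧ L.card < f u)) := by
        by_cases h1 : f u ≤ L.card
        · exact ⟨f u, hc, h1, le_rfl, Or.inl rfl⟩
        · by_cases h2 : L.card % 2 = 1
          · exact ⟨L.card, h2, le_rfl, by omega, Or.inr (Or.inl rfl)⟩
          · exact ⟨1, rfl, by omega, by omega, Or.inr (Or.inr ⟨rfl, by omega, by omega⟩)⟩
      obtain ⟨L₁, hL₁, hL₁c⟩ := exists_subset_card_eq hk2
      obtain ⟨f₁, hf₁, hS₁⟩ := h.block hu hc L₁ (fun v hv => hL v (hL₁ hv)) (by rw [hL₁c]; exact hk1)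
        (by rw [hL₁c]; exact hk3)
      have hss : L \ L₁ ⊂ L := by
        refine sdiff_ssubset hL₁ ?_
        rw [← card_pos, hL₁c]
        omega
      have hcard : (L \ L₁).card = L.card - k := by
        rw [card_sdiff_of_subset hL₁, hL₁c]
      have hu₁ : f₁ u = f u := hf₁ u hu
      have hUn : W ∪ L₁ ∪ (L \ L₁) = W ∪ L := by
        rw [union_assoc, union_sdiff_of_subset hL₁]
      rcases hk4 with rfl | rfl | ⟨hk5, hk6, hk7⟩
      · obtain ⟨f₂, M₂, hf₂, hS₂, hM₂⟩ := ih (L \ L₁) hss (W ∪ L₁) f₁ _ hS₁ (mem_union_left _ hu)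
          (by rw [hu₁]; exact hc) (fun v hv => by
            rw [mem_sdiff] at hv
            refine ⟨fun hv2 => ?_, (hL v hv.1).2⟩
            rcases mem_union.1 hv2 with hv2 | hv2
            · exact (hL v hv.1).1 hv2
            · exact hv.2 hv2)
        refine ⟨f₂, M₂, fun v hv => (hf₂ v (mem_union_left _ hv)).trans (hf₁ v hv), ?_, ?_⟩
        · rw [hUn] at hS₂
          exact hS₂
        · rw [hcard, hu₁, hL₁c] at hM₂
          omega
      · have hLL : L₁ = L := eq_of_subset_of_card_le hL₁ (by rw [hL₁c])
        subst hLL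
        exact ⟨f₁, _, hf₁, hS₁, by omega⟩
      · have hk : k = 1 := by omega
        obtain ⟨f₂, hf₂, hS₂⟩ := hS₁.block (mem_union_left _ hu) (by rw [hu₁]; exact hc) (L \ L₁)
          (fun v hv => by
            rw [mem_sdiff] at hv
            refine ⟨fun hv2 => ?_, (hL v hv.1).2⟩
            rcases mem_union.1 hv2 with hv2 | hv2
            · exact (hL v hv.1).1 hv2
            · exact hv.2 hv2) (by rw [hcard]; omega) (by rw [hcard, hu₁]; omega)
        refine ⟨f₂, M + f u + L₁.card + f₁ u + (L \ L₁).card,
          fun v hv => (hf₂ v (mem_union_left _ hv)).trans (hf₁ v hv), ?_, ?_⟩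
        · rw [hUn] at hS₂
          exact hS₂
        · rw [hcard, hu₁, hL₁c]
          omega

/-- the complement of a set with the rank property is a union of pairs of consecutive numbers -/
theorem pairing (D : ℕ) : ∀ U : Finset ℕ, (∀ x ∈ U, 1 ≤ x ∧ x ≤ D) → U.card % 2 = D % 2 →
    (∀ x ∈ U, (U.filter (· ≤ x)).card % 2 = x % 2) →
    ∃ Z : Finset ℕ, Disjoint Z (Z.image (· + 1)) ∧ Disjoint U (Z ∪ Z.image (· + 1)) ∧
      U ∪ (Z ∪ Z.image (· + 1)) = Icc 1 D := by
  induction D using Nat.strong_induction_on with
  | _ D ih =>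
    intro U hU hpar hrank
    rcases Nat.eq_zero_or_pos D with h0 | hpos
    · subst h0
      have hUe : U = ∅ := by
        rw [eq_empty_iff_forall_notMem]
        intro x hx
        have := hU x hx
        omega
      subst hUe
      exact ⟨∅, by simp, by simp, by simp⟩
    · by_cases hD : D ∈ U
      · obtain ⟨Z, h1, h2, h3⟩ := ih (D - 1) (by omega) (U.erase D) (fun x hx => by
            have h4 := hU x (mem_of_mem_erase hx)
            have h5 := ne_of_mem_erase hx
            omega) (by
            rw [card_erase_of_mem hD]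
            have := card_pos.2 ⟨D, hD⟩
            omega) (fun x hx => by
            have h4 := hU x (mem_of_mem_erase hx)
            have h5 := ne_of_mem_erase hx
            have h6 : (U.erase D).filter (· ≤ x) = U.filter (· ≤ x) := by
              ext y
              simp only [mem_filter, mem_erase]
              constructor
              · rintro ⟨⟨-, h7⟩, h8⟩
                exact ⟨h7, h8⟩
              · rintro ⟨h7, h8⟩
                exact ⟨⟨by omega, h7⟩, h8⟩
            rw [h6]
            exact hrank x (mem_of_mem_erase hx))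
        have hDZ : D ∉ Z ∪ Z.image (· + 1) := by
          intro hDZ
          have : D ∈ Icc 1 (D - 1) := by
            rw [← h3]
            exact mem_union_right _ hDZ
          rw [mem_Icc] at this
          omega
        refine ⟨Z, h1, ?_, ?_⟩
        · rw [← insert_erase hD, disjoint_insert_left]
          exact ⟨hDZ, h2⟩
        · rw [← insert_erase hD, insert_union, h3]
          ext y
          simp only [mem_insert, mem_Icc]
          omega
      · have hD1 : D - 1 ∉ U := by
          intro hD1
          have h4 := hrank _ hD1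
          have h5 : U.filter (· ≤ D - 1) = U := by
            rw [filter_true_of_mem]
            intro y hy
            have h6 := hU y hy
            have h7 : y ≠ D := fun h => hD (h ▸ hy)
            omega
          rw [h5] at h4
          have := hU _ hD1
          omega
        have hD2 : 2 ≤ D := by
          by_contra hcon
          have hD3 : D = 1 := by omega
          subst hD3
          have hUe : U = ∅ := by
            rw [eq_empty_iff_forall_notMem]
            intro x hx
            have h6 := hU x hx
            have h7 : x = 1 := by omega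
            exact hD (h7 ▸ hx)
          rw [hUe] at hpar
          simp at hpar
        obtain ⟨Z, h1, h2, h3⟩ := ih (D - 2) (by omega) U (fun x hx => by
            have h4 := hU x hx
            have h5 : x ≠ D := fun h => hD (h ▸ hx)
            have h6 : x ≠ D - 1 := fun h => hD1 (h ▸ hx)
            omega) (by omega) hrank
        have hZ : ∀ y ∈ U ∪ (Z ∪ Z.image (· + 1)), y ≤ D - 2 := by
          intro y hy
          rw [h3, mem_Icc] at hy
          exact hy.2
        have hI : (insert (D - 1) Z).image (· + 1) = insert D (Z.image (· + 1)) := by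
          rw [image_insert]
          congr 1
          omega
        refine ⟨insert (D - 1) Z, ?_, ?_, ?_⟩
        · rw [hI]
          rw [disjoint_left] at h1 ⊢
          intro y hy hy2
          rw [mem_insert] at hy hy2
          rcases hy with rfl | hy
          · rcases hy2 with hy2 | hy2
            · omega
            · have := hZ (D - 1) (mem_union_right _ (mem_union_right _ hy2))
              omega
          · rcases hy2 with rfl | hy2
            · have := hZ y (mem_union_right _ (mem_union_left _ hy))
              omega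
            · exact h1 hy hy2
        · rw [hI]
          rw [disjoint_left] at h2 ⊢
          intro y hy hy2
          have h4 := hZ y (mem_union_left _ hy)
          rw [mem_union, mem_insert, mem_insert] at hy2
          rcases hy2 with (rfl | hy2) | (rfl | hy2)
          · omega
          · exact h2 hy (mem_union_left _ hy2)
          · omega
          · exact h2 hy (mem_union_right _ hy2)
        · rw [hI]
          ext y
          have h4 : y ∈ U ∪ (Z ∪ Z.image (· + 1)) ↔ y ∈ Icc 1 (D - 2) := by rw [h3]
          simp only [mem_union, mem_insert, mem_Icc] at h4 ⊢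
          constructor
          · rintro (h5 | (rfl | h5) | (rfl | h5))
            · have := h4.1 (Or.inl h5); omega
            · omega
            · have := h4.1 (Or.inr (Or.inl h5)); omega
            · omega
            · have := h4.1 (Or.inr (Or.inr h5)); omega
          · rintro ⟨h5, h6⟩
            by_cases h7 : y ≤ D - 2
            · rcases h4.2 ⟨h5, h7⟩ with h8 | h8 | h8
              · exact Or.inl h8
              · exact Or.inr (Or.inl (Or.inr h8))
              · exact Or.inr (Or.inr (Or.inr h8))
            · by_cases h9 : y = D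
              · exact Or.inr (Or.inr (Or.inl h9))
              · exact Or.inr (Or.inl (Or.inl (by omega)))

/-- the leaves of the root fill the holes -/
theorem St.fill [Fintype V] {T : Rt V} {W : Finset V} {f : V → ℕ} {M : ℕ} (h : St T W f M)
    (hr : ∀ v, v ∉ W → T.p v = T.r) (hM : M + 1 ≤ 2 * Fintype.card V) :
    ∃ f' : V → ℕ, (∀ v ∈ W, f' v = f v) ∧ used T univ f' = Icc 1 (2 * Fintype.card V - 1) := by
  set D := 2 * Fintype.card V - 1 with hD
  have hodd := h.odd
  have hcU := h.card
  obtain ⟨Z, h1, h2, h3⟩ := pairing D (used T W f) (fun x hx => by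
    have := h.sub x hx
    omega) (by omega) h.rank
  have hZc : Z.card = (univ \ W).card := by
    have h4 := congrArg Finset.card h3
    rw [card_union_of_disjoint h2, card_union_of_disjoint h1, Nat.card_Icc,
      card_image_of_injective _ (add_left_injective 1)] at h4
    rw [card_sdiff_of_subset (subset_univ W), card_univ]
    omega
  let e := Finset.equivOfCardEq hZc.symm
  have hmem : ∀ v, v ∉ W → v ∈ univ \ W := fun v hv => mem_sdiff.2 ⟨mem_univ v, hv⟩
  let f' : V → ℕ := fun v => if hv : v ∈ W then f v else (e ⟨v, hmem v hv⟩ : ℕ) + 1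
  have hW : ∀ v ∈ W, f' v = f v := by
    intro v hv
    simp only [f', dif_pos hv]
  have hnW : ∀ v (hv : v ∉ W), f' v = (e ⟨v, hmem v hv⟩ : ℕ) + 1 := by
    intro v hv
    simp only [f', dif_neg hv]
  have heW : ∀ v (hv : v ∉ W), ad (f' v) (f' (T.p v)) = (e ⟨v, hmem v hv⟩ : ℕ) := by
    intro v hv
    rw [hr v hv, hW _ h.rW, h.fr, hnW v hv]
    unfold ad
    omega
  refine ⟨f', hW, ?_⟩
  rw [← h3]
  have h5 : used T univ f' = used T W f' ∪ ((univ \ W).image f' ∪
      (univ \ W).image fun v => ad (f' v) (f' (T.p v))) := by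
    unfold used
    have h6 : (univ : Finset V) = W ∪ (univ \ W) := (union_sdiff_of_subset (subset_univ W)).symm
    have h7 : (univ : Finset V).erase T.r = W.erase T.r ∪ (univ \ W) := by
      ext v
      simp only [mem_erase, mem_univ, mem_union, mem_sdiff, and_true, true_and]
      constructor
      · intro hv
        by_cases hvW : v ∈ W
        · exact Or.inl ⟨hv, hvW⟩
        · exact Or.inr hvW
      · rintro (⟨hv, -⟩ | hv)
        · exact hv
        · rintro rfl
          exact hv h.rW
    have h10 : (univ : Finset V).image f' = W.image f' ∪ (univ \ W).image f' := by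
      rw [← image_union, ← h6]
    rw [h7, image_union, h10]
    ext x
    simp only [mem_union]
    tauto
  have h8 : (univ \ W).image f' = Z.image (· + 1) := by
    ext x
    simp only [mem_image]
    constructor
    · rintro ⟨v, hv, rfl⟩
      have hv' : v ∉ W := (mem_sdiff.1 hv).2
      exact ⟨e ⟨v, hmem v hv'⟩, (e _).2, (hnW v hv').symm⟩
    · rintro ⟨z, hz, rfl⟩
      refine ⟨(e.symm ⟨z, hz⟩ : _), (e.symm _).2, ?_⟩
      have hv' : ((e.symm ⟨z, hz⟩ : {x // x ∈ univ \ W}) : V) ∉ W := (mem_sdiff.1 (e.symm ⟨z, hz⟩).2).2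
      rw [hnW _ hv']
      have : e ⟨((e.symm ⟨z, hz⟩ : {x // x ∈ univ \ W}) : V), hmem _ hv'⟩ = ⟨z, hz⟩ := e.apply_symm_apply _
      rw [this]
  have h9 : ((univ \ W).image fun v => ad (f' v) (f' (T.p v))) = Z := by
    ext x
    simp only [mem_image]
    constructor
    · rintro ⟨v, hv, rfl⟩
      have hv' : v ∉ W := (mem_sdiff.1 hv).2
      rw [heW v hv']
      exact (e _).2
    · intro hz
      refine ⟨(e.symm ⟨x, hz⟩ : _), (e.symm _).2, ?_⟩
      have hv' : ((e.symm ⟨x, hz⟩ : {x // x ∈ univ \ W}) : V) ∉ W := (mem_sdiff.1 (e.symm ⟨x, hz⟩).2).2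
      rw [heW _ hv']
      have : e ⟨((e.symm ⟨x, hz⟩ : {x // x ∈ univ \ W}) : V), hmem _ hv'⟩ = ⟨x, hz⟩ := e.apply_symm_apply _
      rw [this]
  rw [h5, h8, h9, used_congr T W h.pW hW, union_comm Z]

end SSq
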