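import Pool.Agent.Lib.MP_8a819d_co.S1

/-!
# MP_8a819d_co: numberings of small trees with the rank property, polynomial bound

Label `1` for the root. The labels of the vertices at the distances `1 + i (J+1)` of the root are in `[M₀, 2M₀)`,
a child gets a label close to one half of the label of its parent for `J` generations.
-/

set_option autoImplicit false
set_option linter.unusedSectionVars false
set_option linter.unusedVariables false

namespace SSq

open Finset

section defs

variable {V : Type} [Fintype V] [LinearOrder V] (T : Rt V) (J : ℕ)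

/-- the phase of a vertex -/
def ph (v : V) : ℕ := (T.dep v - 1) % (J + 1)

/-- `w` is a descendant of `v` in its segment -/
def InSeg (v w : V) : Prop := w ≠ T.r ∧ ∃ k, k ≤ ph T J w ∧ T.p^[k] w = v

open Classical in
/-- descendants of `v` in its segment -/
noncomputable def seg (v : V) : Finset V := univ.filter fun w => InSeg T J v w

/-- radius of the territory -/
noncomputable def rho (v : V) : ℕ := 4 ^ (J - ph T J v) * ((seg T J v).card - 1)

/-- children -/
noncomputable def ch (q : V) : Finset V := univ.filter fun w => w ≠ T.r ∧ T.p w = q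

noncomputable def off (v : V) : ℕ := ∑ w ∈ (ch T (T.p v)).filter (v < ·), 2 * (rho T J w + 1)

noncomputable def idx (v : V) : ℕ := ((ch T (T.p v)).filter (· ≤ v)).card

noncomputable def tops : Finset V := univ.filter fun w => w ≠ T.r ∧ ph T J w = 0

noncomputable def pos (M₀ K : ℕ) (v : V) : ℕ := M₀ + ∑ w ∈ (tops T J).filter (· < v), (K + 2 * rho T J w + 2)

/-- offset of the labels of `v` from one half of the label `cp` of the parent -/
noncomputable def tt (v : V) (cp : ℕ) : ℕ := off T J v + rho T J v + ((cp - 1) / 2 + idx T v + 1) % 2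

noncomputable def stp (M₀ K : ℕ) (v : V) (cp : ℕ) : ℕ :=
  if ph T J v = 0 then pos T J M₀ K v + K + rho T J v + 1
  else if idx T v % 2 = 1 then (cp - 1) / 2 + 1 + tt T J v cp else (cp - 1) / 2 - tt T J v cp

noncomputable def cA (M₀ K : ℕ) : ℕ → V → ℕ
  | 0, _ => 1
  | n + 1, v => stp T J M₀ K v (cA M₀ K n (T.p v))

/-- the label of a vertex -/
noncomputable def cc (M₀ K : ℕ) (v : V) : ℕ := cA T J M₀ K (T.dep v) v

end defs

section facts

variable {V : Type} [Fintype V] [LinearOrder V] {T : Rt V} {J : ℕ}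

theorem cc_r (M₀ K : ℕ) : cc T J M₀ K T.r = 1 := by
  unfold cc
  rw [T.dr]
  rfl

theorem cc_eq (M₀ K : ℕ) {v : V} (hv : v ≠ T.r) :
    cc T J M₀ K v = stp T J M₀ K v (cc T J M₀ K (T.p v)) := by
  unfold cc
  rw [← T.dp v hv]
  rfl

theorem dep_pos {v : V} (hv : v ≠ T.r) : 1 ≤ T.dep v := by
  rw [← T.dp v hv]
  exact Nat.le_add_left _ _

theorem ph_le (v : V) : ph T J v ≤ J := Nat.lt_succ_iff.1 (Nat.mod_lt _ (Nat.succ_pos J))

theorem ph_parent {v : V} (hv : v ≠ T.r) (h : 1 ≤ ph T J v) :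
    T.p v ≠ T.r ∧ ph T J (T.p v) + 1 = ph T J v := by
  have h1 := T.dp v hv
  have hd : T.p v ≠ T.r := by
    intro hr
    rw [hr, T.dr] at h1
    unfold ph at h
    rw [← h1] at h
    simp at h
  refine ⟨hd, ?_⟩
  have h2 := dep_pos hd
  unfold ph at h ⊢
  obtain ⟨m, hm⟩ : ∃ m, T.dep (T.p v) = m + 1 := ⟨T.dep (T.p v) - 1, by omega⟩
  have h3 : T.dep v = m + 2 := by omega
  have h4 : T.dep v - 1 = m + 1 := by omega
  rw [h4] at h ⊢
  rw [hm]
  simp only [Nat.add_sub_cancel]
  rcases Nat.lt_or_ge (m % (J + 1) + 1) (J + 1) with h5 | h5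
  · rw [Nat.add_mod, Nat.mod_eq_of_lt (a := 1) (by omega), Nat.mod_eq_of_lt h5]
  · have h6 : m % (J + 1) = J := by
      have := Nat.mod_lt m (show 0 < J + 1 by omega)
      omega
    exfalso
    rcases Nat.eq_zero_or_pos J with hJ | hJ
    · subst hJ
      omega
    · rw [Nat.add_mod, h6, Nat.mod_eq_of_lt (a := 1) (by omega), Nat.mod_self] at h
      omega

/-- a vertex of phase zero has the root or a vertex of the last phase as parent -/
theorem ph_parent_zero {v : V} (hv : v ≠ T.r) (h : ph T J v = 0) (hp : T.p v ≠ T.r) :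
    ph T J (T.p v) = J := by
  have h1 := T.dp v hv
  have h2 := dep_pos hp
  unfold ph at h ⊢
  obtain ⟨m, hm⟩ : ∃ m, T.dep (T.p v) = m + 1 := ⟨T.dep (T.p v) - 1, by omega⟩
  have h3 : T.dep v - 1 = m + 1 := by omega
  rw [h3] at h
  rw [hm, Nat.add_sub_cancel]
  have h7 := Nat.mod_lt m (show 0 < J + 1 by omega)
  by_contra hcon
  have h5 : m % (J + 1) + 1 < J + 1 := by omega
  have h8 : 0 < J := by omega
  rw [Nat.add_mod, Nat.mod_eq_of_lt (a := 1) (by omega), Nat.mod_eq_of_lt h5] at h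
  omega

theorem ph_child {w q : V} (hw : w ≠ T.r) (hp : T.p w = q) (hq : q ≠ T.r) (h : ph T J q < J) :
    ph T J w = ph T J q + 1 := by
  rcases Nat.eq_zero_or_pos (ph T J w) with h0 | h0
  · have := ph_parent_zero hw h0 (by rw [hp]; exact hq)
    rw [hp] at this
    omega
  · have := (ph_parent hw h0).2
    rw [hp] at this
    exact this.symm

theorem iter_facts {w : V} (hw : w ≠ T.r) : ∀ k, k ≤ ph T J w →
    T.p^[k] w ≠ T.r ∧ T.dep (T.p^[k] w) + k = T.dep w ∧ ph T J (T.p^[k] w) + k = ph T J w := by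
  intro k
  induction k with
  | zero => intro _; exact ⟨hw, rfl, rfl⟩
  | succ k ih =>
    intro hk
    obtain ⟨h1, h2, h3⟩ := ih (by omega)
    rw [Function.iterate_succ_apply']
    have h4 := ph_parent h1 (show 1 ≤ ph T J (T.p^[k] w) by omega)
    have h5 := T.dp _ h1
    refine ⟨h4.1, ?_, ?_⟩
    · generalize T.p^[k] w = z at *
      omega
    · generalize T.p^[k] w = z at *
      omega

open Classical in
theorem mem_seg {v w : V} : w ∈ seg T J v ↔ w ≠ T.r ∧ ∃ k, k ≤ ph T J w ∧ T.p^[k] w = v := by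
  unfold seg
  rw [mem_filter]
  unfold InSeg
  simp only [mem_univ, true_and]

theorem self_mem_seg {v : V} (hv : v ≠ T.r) : v ∈ seg T J v :=
  mem_seg.2 ⟨hv, 0, Nat.zero_le _, rfl⟩

theorem seg_ph {v w : V} (h : w ∈ seg T J v) :
    T.dep v ≤ T.dep w ∧ ph T J v ≤ ph T J w ∧ T.p^[ph T J w - ph T J v] w = v := by
  obtain ⟨hw, k, hk, rfl⟩ := mem_seg.1 h
  obtain ⟨-, h2, h3⟩ := iter_facts hw k hk
  refine ⟨by omega, by omega, ?_⟩
  have : ph T J w - ph T J (T.p^[k] w) = k := by omega
  rw [this]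

theorem seg_disj {v v' : V} (hne : v ≠ v') (h : ph T J v = ph T J v') :
    Disjoint (seg T J v) (seg T J v') := by
  rw [disjoint_left]
  intro w hw hw'
  apply hne
  have h1 := (seg_ph hw).2.2
  have h2 := (seg_ph hw').2.2
  rw [← h1, ← h2, h]

theorem seg_last {v : V} (hv : v ≠ T.r) (h : ph T J v = J) : (seg T J v).card = 1 := by
  rw [card_eq_one]
  refine ⟨v, ?_⟩
  ext w
  rw [mem_singleton]
  constructor
  · intro hw
    have h1 := seg_ph hw
    have h2 := ph_le (T := T) (J := J) w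
    have h3 : ph T J w - ph T J v = 0 := by omega
    have h4 := h1.2.2
    rw [h3] at h4
    exact h4
  · rintro rfl
    exact self_mem_seg hv

theorem seg_children {q : V} (hq : q ≠ T.r) (h : ph T J q < J) :
    ∑ w ∈ ch T q, (seg T J w).card ≤ (seg T J q).card - 1 := by
  rw [← card_biUnion]
  · have hsub : (ch T q).biUnion (seg T J) ⊆ (seg T J q).erase q := by
      intro u hu
      rw [mem_biUnion] at hu
      obtain ⟨w, hw, hu⟩ := hu
      unfold ch at hw
      rw [mem_filter] at hw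
      obtain ⟨-, hw1, hw2⟩ := hw
      have h1 := ph_child hw1 hw2 hq h
      obtain ⟨hd, hphu, -⟩ := seg_ph hu
      obtain ⟨hu1, k, hk, hku⟩ := mem_seg.1 hu
      have h2 := iter_facts hu1 k hk
      rw [hku] at h2
      rw [mem_erase, mem_seg]
      refine ⟨?_, hu1, k + 1, by omega, ?_⟩
      · rintro rfl
        have := T.dp w hw1
        rw [hw2] at this
        omega
      · rw [Function.iterate_succ_apply', hku, hw2]
    have h3 := card_le_card hsub
    rw [card_erase_of_mem (self_mem_seg hq)] at h3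
    exact h3
  · intro w hw w' hw' hne
    have hw2 : w ∈ ch T q := hw
    have hw2' : w' ∈ ch T q := hw'
    unfold ch at hw2 hw2'
    rw [mem_filter] at hw2 hw2'
    refine seg_disj hne ?_
    rw [ph_child hw2.2.1 hw2.2.2 hq h, ph_child hw2'.2.1 hw2'.2.2 hq h]

theorem seg_tops : ∑ w ∈ tops T J, (seg T J w).card ≤ Fintype.card V := by
  rw [← card_biUnion]
  · exact card_le_univ _
  · intro w hw w' hw' hne
    have hw2 : w ∈ tops T J := hw
    have hw2' : w' ∈ tops T J := hw'
    unfold tops at hw2 hw2'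
    rw [mem_filter] at hw2 hw2'
    refine seg_disj hne ?_
    rw [hw2.2.2, hw2'.2.2]

theorem rho_children {q : V} (hq : q ≠ T.r) (h : ph T J q < J) :
    2 * ∑ w ∈ ch T q, 2 * (rho T J w + 1) ≤ rho T J q := by
  have h1 : ∀ w ∈ ch T q, 2 * (2 * (rho T J w + 1)) ≤ 4 ^ (J - ph T J q) * (seg T J w).card := by
    intro w hw
    unfold ch at hw
    rw [mem_filter] at hw
    obtain ⟨-, hw1, hw2⟩ := hw
    have h2 := ph_child hw1 hw2 hq h
    have h3 : 1 ≤ (seg T J w).card := card_pos.2 ⟨w, self_mem_seg hw1⟩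
    unfold rho
    obtain ⟨s, hs⟩ : ∃ s, (seg T J w).card = s + 1 := ⟨(seg T J w).card - 1, by omega⟩
    obtain ⟨i, hi⟩ : ∃ i, J - ph T J w = i ∧ J - ph T J q = i + 1 := ⟨J - ph T J w, rfl, by omega⟩
    rw [hs, hi.1, hi.2, Nat.add_sub_cancel, pow_succ]
    have h4 : 1 ≤ 4 ^ i := Nat.one_le_pow _ _ (by norm_num)
    nlinarith
  calc 2 * ∑ w ∈ ch T q, 2 * (rho T J w + 1) = ∑ w ∈ ch T q, 2 * (2 * (rho T J w + 1)) := by
        rw [mul_sum]
    _ ≤ ∑ w ∈ ch T q, 4 ^ (J - ph T J q) * (seg T J w).card := sum_le_sum h1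
    _ = 4 ^ (J - ph T J q) * ∑ w ∈ ch T q, (seg T J w).card := by rw [mul_sum]
    _ ≤ 4 ^ (J - ph T J q) * ((seg T J q).card - 1) := Nat.mul_le_mul_left _ (seg_children hq h)
    _ = rho T J q := rfl

theorem rho_even {v : V} (hv : v ≠ T.r) : rho T J v % 2 = 0 := by
  rcases Nat.lt_or_ge (ph T J v) J with h | h
  · unfold rho
    obtain ⟨i, hi⟩ : ∃ i, J - ph T J v = i + 1 := ⟨J - ph T J v - 1, by omega⟩
    rw [hi, pow_succ]
    have : 4 ^ i * 4 * ((seg T J v).card - 1) = 2 * (2 * (4 ^ i * ((seg T J v).card - 1))) := by ring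
    rw [this]
    exact Nat.mul_mod_right _ _
  · have := ph_le (T := T) (J := J) v
    unfold rho
    rw [seg_last hv (le_antisymm this h)]
    simp

theorem off_add {v : V} (hv : v ≠ T.r) :
    off T J v + 2 * (rho T J v + 1) ≤ ∑ w ∈ ch T (T.p v), 2 * (rho T J w + 1) := by
  unfold off
  have h1 : insert v ((ch T (T.p v)).filter (v < ·)) ⊆ ch T (T.p v) := by
    intro w hw
    rcases mem_insert.1 hw with rfl | hw
    · exact mem_filter.2 ⟨mem_univ _, hv, rfl⟩
    · exact (mem_filter.1 hw).1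
  have h2 : v ∉ (ch T (T.p v)).filter (v < ·) := by
    intro h
    exact lt_irrefl _ (mem_filter.1 h).2
  have h3 := sum_le_sum_of_subset (f := fun w => 2 * (rho T J w + 1)) h1
  rw [sum_insert h2] at h3
  omega

theorem off_lt {v w : V} (hw : w ≠ T.r) (hp : T.p v = T.p w) (hlt : v < w) :
    off T J w + 2 * (rho T J w + 1) ≤ off T J v := by
  unfold off
  rw [hp]
  have h1 : insert w ((ch T (T.p w)).filter (w < ·)) ⊆ (ch T (T.p w)).filter (v < ·) := by
    intro u hu
    rcases mem_insert.1 hu with rfl | hu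
    · exact mem_filter.2 ⟨mem_filter.2 ⟨mem_univ _, hw, rfl⟩, hlt⟩
    · rw [mem_filter] at hu ⊢
      exact ⟨hu.1, hlt.trans hu.2⟩
  have h2 : w ∉ (ch T (T.p w)).filter (w < ·) := by
    intro h
    exact lt_irrefl _ (mem_filter.1 h).2
  have h3 := sum_le_sum_of_subset (f := fun w => 2 * (rho T J w + 1)) h1
  rw [sum_insert h2] at h3
  omega

theorem off_even (v : V) : off T J v % 2 = 0 := by
  unfold off
  rw [← mul_sum]
  exact Nat.mul_mod_right _ _

theorem pos_even {M₀ K : ℕ} (hM : M₀ % 2 = 0) (hK : K % 2 = 0) (v : V) : pos T J M₀ K v % 2 = 0 := by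
  unfold pos
  have h1 : ∀ s : Finset V, (∑ w ∈ s, (K + 2 * rho T J w + 2)) % 2 = 0 := by
    intro s
    induction s using Finset.induction_on with
    | empty => simp
    | insert a s ha ih =>
      rw [sum_insert ha]
      omega
  have := h1 ((tops T J).filter (· < v))
  omega

theorem pos_ge {M₀ K : ℕ} (v : V) : M₀ ≤ pos T J M₀ K v := Nat.le_add_right _ _

theorem pos_lt {M₀ K : ℕ} {v w : V} (hv : v ∈ tops T J) (h : v < w) :
    pos T J M₀ K v + (K + 2 * rho T J v + 2) ≤ pos T J M₀ K w := by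
  unfold pos
  have h1 : insert v ((tops T J).filter (· < v)) ⊆ (tops T J).filter (· < w) := by
    intro u hu
    rcases mem_insert.1 hu with rfl | hu
    · exact mem_filter.2 ⟨hv, h⟩
    · rw [mem_filter] at hu ⊢
      exact ⟨hu.1, hu.2.trans h⟩
  have h2 : v ∉ (tops T J).filter (· < v) := by
    intro h
    exact lt_irrefl _ (mem_filter.1 h).2
  have h3 := sum_le_sum_of_subset (f := fun w => K + 2 * rho T J w + 2) h1
  rw [sum_insert h2] at h3
  omega

theorem pos_end {M₀ K : ℕ} (hT : ∑ w ∈ tops T J, (K + 2 * rho T J w + 2) ≤ M₀) {v : V} (hv : v ∈ tops T J) :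
    pos T J M₀ K v + (K + 2 * rho T J v + 2) ≤ 2 * M₀ := by
  unfold pos
  have h1 : insert v ((tops T J).filter (· < v)) ⊆ tops T J := by
    intro u hu
    rcases mem_insert.1 hu with rfl | hu
    · exact hv
    · exact (mem_filter.1 hu).1
  have h2 : v ∉ (tops T J).filter (· < v) := by
    intro h
    exact lt_irrefl _ (mem_filter.1 h).2
  have h3 := sum_le_sum_of_subset (f := fun w => K + 2 * rho T J w + 2) h1
  rw [sum_insert h2] at h3
  omega

end facts

end SSq
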