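import Pool.Agent.Lib.MP_8a819d_co.S2

/-!
# MP_8a819d_co: the positions of the labels
-/

set_option autoImplicit false
set_option linter.unusedSectionVars false
set_option linter.unusedVariables false

namespace SSq

open Finset

variable {V : Type} [Fintype V] [LinearOrder V] {T : Rt V} {J M₀ K : ℕ}

/-- the conditions on the parameters -/
structure Par (T : Rt V) (J M₀ K : ℕ) : Prop where
  hT : ∑ w ∈ tops T J, (K + 2 * rho T J w + 2) ≤ M₀
  hK : 2 * M₀ ≤ 2 ^ J * K
  hM : M₀ % 2 = 0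
  hK2 : K % 2 = 0
  hK1 : 2 ≤ K
  hM2 : 2 ^ J < M₀

theorem zone_facts {v : V} (hv : v ≠ T.r) (hph : 1 ≤ ph T J v) (hodd : cc T J M₀ K (T.p v) % 2 = 1)
    (hr : rho T J (T.p v) < cc T J M₀ K (T.p v)) :
    ∃ a t, cc T J M₀ K (T.p v) = 2 * a + 1 ∧ t = off T J v + rho T J v + (a + idx T v + 1) % 2 ∧
      t < a ∧ (idx T v % 2 = 1 → cc T J M₀ K v = a + 1 + t) ∧ (idx T v % 2 = 0 → cc T J M₀ K v = a - t) ∧
      2 * t + 2 * rho T J v + 1 ≤ rho T J (T.p v) := by
  obtain ⟨hq, hphq⟩ := ph_parent hv hph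
  have h1 := off_add (J := J) hv
  have h2 := rho_children (T := T) (J := J) hq (by have := ph_le (T := T) (J := J) v; omega)
  refine ⟨(cc T J M₀ K (T.p v) - 1) / 2, tt T J v (cc T J M₀ K (T.p v)), by omega, rfl, ?_, ?_, ?_, ?_⟩
  · unfold tt
    omega
  · intro hi
    rw [cc_eq M₀ K hv]
    unfold stp
    rw [if_neg (by omega), if_pos hi]
  · intro hi
    rw [cc_eq M₀ K hv]
    unfold stp
    rw [if_neg (by omega), if_neg (by omega)]
  · unfold tt
    omega

theorem top_eq {v : V} (hv : v ≠ T.r) (hph : ph T J v = 0) :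
    cc T J M₀ K v = pos T J M₀ K v + K + rho T J v + 1 := by
  rw [cc_eq M₀ K hv]
  unfold stp
  rw [if_pos hph]

theorem mem_tops {v : V} : v ∈ tops T J ↔ v ≠ T.r ∧ ph T J v = 0 := by
  unfold tops
  simp only [mem_filter, mem_univ, true_and]

/-- the main induction -/
theorem main_ind (hP : Par T J M₀ K) : ∀ n, ∀ v : V, v ≠ T.r → T.dep v = n →
    cc T J M₀ K v % 2 = 1 ∧ M₀ + 2 ^ ph T J v * rho T J v < 2 ^ ph T J v * cc T J M₀ K v ∧
    2 ^ ph T J v * (cc T J M₀ K v + rho T J v) < 2 * M₀ := by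
  intro n
  induction n using Nat.strong_induction_on with
  | _ n ih =>
    intro v hv hn
    have hev := rho_even (J := J) hv
    rcases Nat.eq_zero_or_pos (ph T J v) with h0 | h0
    · rw [h0, pow_zero, one_mul, one_mul, one_mul, top_eq hv h0]
      have h1 := pos_even (T := T) (J := J) hP.hM hP.hK2 v
      have h2 := pos_end hP.hT (mem_tops.2 ⟨hv, h0⟩)
      have h3 := pos_ge (T := T) (J := J) (M₀ := M₀) (K := K) v
      have h4 := hP.hK2
      omega
    · obtain ⟨hq, hphq⟩ := ph_parent hv h0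
      have hd := T.dp v hv
      obtain ⟨i1, i2, i3⟩ := ih (T.dep (T.p v)) (by omega) (T.p v) hq rfl
      have hpos : 0 < 2 ^ ph T J (T.p v) := by positivity
      have hr : rho T J (T.p v) < cc T J M₀ K (T.p v) := by
        have h5 : 2 ^ ph T J (T.p v) * rho T J (T.p v) < 2 ^ ph T J (T.p v) * cc T J M₀ K (T.p v) := by
          omega
        exact Nat.lt_of_mul_lt_mul_left h5
      obtain ⟨a, t, e1, e2, e3, e4, e5, e6⟩ := zone_facts hv h0 i1 hr
      have hoe := off_even (T := T) (J := J) v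
      have hpow : 2 ^ ph T J v = 2 * 2 ^ ph T J (T.p v) := by
        rw [← hphq, pow_succ]
        ring
      have f3a : cc T J M₀ K (T.p v) + 2 * rho T J v ≤ 2 * cc T J M₀ K v + rho T J (T.p v) := by
        rcases Nat.mod_two_eq_zero_or_one (idx T v) with hi | hi
        · rw [e5 hi]; omega
        · rw [e4 hi]; omega
      have f3b : 2 * cc T J M₀ K v + 2 * rho T J v ≤ cc T J M₀ K (T.p v) + rho T J (T.p v) := by
        rcases Nat.mod_two_eq_zero_or_one (idx T v) with hi | hi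
        · rw [e5 hi]; omega
        · rw [e4 hi]; omega
      refine ⟨?_, ?_, ?_⟩
      · rcases Nat.mod_two_eq_zero_or_one (idx T v) with hi | hi
        · rw [e5 hi]; omega
        · rw [e4 hi]; omega
      · rw [hpow]
        have g1 := Nat.mul_le_mul_left (2 ^ ph T J (T.p v)) f3a
        nlinarith
      · rw [hpow]
        have g1 := Nat.mul_le_mul_left (2 ^ ph T J (T.p v)) f3b
        nlinarith

theorem cc_odd (hP : Par T J M₀ K) (v : V) : cc T J M₀ K v % 2 = 1 := by
  by_cases hv : v = T.r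
  · subst hv
    rw [cc_r]
  · exact (main_ind hP _ v hv rfl).1

theorem cc_lt (hP : Par T J M₀ K) {v : V} (hv : v ≠ T.r) : cc T J M₀ K v < 2 * M₀ := by
  have h1 := (main_ind hP _ v hv rfl).2.2
  have h2 : 1 ≤ 2 ^ ph T J v := Nat.one_le_two_pow
  nlinarith

theorem rho_lt (hP : Par T J M₀ K) {v : V} (hv : v ≠ T.r) : rho T J v < cc T J M₀ K v := by
  have h1 := (main_ind hP _ v hv rfl).2.1
  have h5 : 2 ^ ph T J v * rho T J v < 2 ^ ph T J v * cc T J M₀ K v := by
    omega
  exact Nat.lt_of_mul_lt_mul_left h5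

/-- the facts on the vertices of the phases `≥ 1` -/
theorem zone (hP : Par T J M₀ K) {v : V} (hv : v ≠ T.r) (hph : 1 ≤ ph T J v) :
    ∃ a t, cc T J M₀ K (T.p v) = 2 * a + 1 ∧ t = off T J v + rho T J v + (a + idx T v + 1) % 2 ∧
      t < a ∧ (idx T v % 2 = 1 → cc T J M₀ K v = a + 1 + t) ∧ (idx T v % 2 = 0 → cc T J M₀ K v = a - t) ∧
      2 * t + 2 * rho T J v + 1 ≤ rho T J (T.p v) :=
  zone_facts hv hph (cc_odd hP _) (rho_lt hP (ph_parent hv hph).1)

theorem par_lt (hP : Par T J M₀ K) {v : V} (hv : v ≠ T.r) (hph : ph T J v = 0) :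
    cc T J M₀ K (T.p v) < K := by
  by_cases hq : T.p v = T.r
  · rw [hq, cc_r]
    have := hP.hK1
    omega
  · have h1 := ph_parent_zero hv hph hq
    have h2 := (main_ind hP _ _ hq rfl).2.2
    rw [h1] at h2
    have h3 := hP.hK
    have h5 := Nat.mul_le_mul_left (2 ^ J) (Nat.le_add_right (cc T J M₀ K (T.p v)) (rho T J (T.p v)))
    have h4 : 2 ^ J * cc T J M₀ K (T.p v) < 2 ^ J * K := h5.trans_lt (h2.trans_le h3)
    exact Nat.lt_of_mul_lt_mul_left h4

/-- the smaller one of the two labels -/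
noncomputable def lo (T : Rt V) (J M₀ K : ℕ) (v : V) : ℕ :=
  min (cc T J M₀ K v) (ad (cc T J M₀ K v) (cc T J M₀ K (T.p v)))

/-- the larger one of the two labels -/
noncomputable def hi (T : Rt V) (J M₀ K : ℕ) (v : V) : ℕ :=
  max (cc T J M₀ K v) (ad (cc T J M₀ K v) (cc T J M₀ K (T.p v)))

theorem top_lo (hP : Par T J M₀ K) {v : V} (hv : v ≠ T.r) (hph : ph T J v = 0) :
    pos T J M₀ K v < lo T J M₀ K v ∧ lo T J M₀ K v < hi T J M₀ K v ∧
    hi T J M₀ K v < pos T J M₀ K v + (K + 2 * rho T J v + 2) ∧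
    hi T J M₀ K v = cc T J M₀ K v ∧ lo T J M₀ K v = ad (cc T J M₀ K v) (cc T J M₀ K (T.p v)) := by
  have h1 := top_eq (M₀ := M₀) (K := K) hv hph
  have h2 := par_lt hP hv hph
  have h3 := cc_odd hP (T.p v)
  unfold lo hi ad
  omega

theorem zone_lo (hP : Par T J M₀ K) {v : V} (hv : v ≠ T.r) (hph : 1 ≤ ph T J v) :
    ∃ a t, cc T J M₀ K (T.p v) = 2 * a + 1 ∧ t = off T J v + rho T J v + (a + idx T v + 1) % 2 ∧
      t < a ∧ lo T J M₀ K v = a - t ∧ hi T J M₀ K v = a + 1 + t ∧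
      (idx T v % 2 = 1 → cc T J M₀ K v = hi T J M₀ K v ∧
        ad (cc T J M₀ K v) (cc T J M₀ K (T.p v)) = lo T J M₀ K v) ∧
      (idx T v % 2 = 0 → cc T J M₀ K v = lo T J M₀ K v ∧
        ad (cc T J M₀ K v) (cc T J M₀ K (T.p v)) = hi T J M₀ K v) ∧
      2 * t + 2 * rho T J v + 1 ≤ rho T J (T.p v) := by
  obtain ⟨a, t, e1, e2, e3, e4, e5, e6⟩ := zone hP hv hph
  refine ⟨a, t, e1, e2, e3, ?_⟩
  rcases Nat.mod_two_eq_zero_or_one (idx T v) with hi' | hi'
  · have e7 := e5 hi'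
    unfold lo hi ad
    rw [e7, e1]
    omega
  · have e7 := e4 hi'
    unfold lo hi ad
    rw [e7, e1]
    omega

theorem lo_lt_hi (hP : Par T J M₀ K) {v : V} (hv : v ≠ T.r) : lo T J M₀ K v < hi T J M₀ K v := by
  rcases Nat.eq_zero_or_pos (ph T J v) with h0 | h0
  · exact (top_lo hP hv h0).2.1
  · obtain ⟨a, t, e1, e2, e3, e4, e5, -⟩ := zone_lo hP hv h0
    omega

/-- the labels are between the powers of `2` -/
theorem lohi_scale (hP : Par T J M₀ K) {v : V} (hv : v ≠ T.r) :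
    M₀ < 2 ^ ph T J v * lo T J M₀ K v ∧ 2 ^ ph T J v * hi T J M₀ K v < 2 * M₀ := by
  rcases Nat.eq_zero_or_pos (ph T J v) with h0 | h0
  · obtain ⟨h1, h2, h3, h4, h5⟩ := top_lo hP hv h0
    rw [h0, pow_zero, one_mul, one_mul]
    have h6 := pos_end hP.hT (mem_tops.2 ⟨hv, h0⟩)
    have h7 := pos_ge (T := T) (J := J) (M₀ := M₀) (K := K) v
    omega
  · obtain ⟨a, t, e1, e2, e3, e4, e5, -, -, e6⟩ := zone_lo hP hv h0
    obtain ⟨hq, hphq⟩ := ph_parent hv h0
    obtain ⟨-, i2, i3⟩ := main_ind hP _ _ hq rfl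
    have hpow : 2 ^ ph T J v = 2 * 2 ^ ph T J (T.p v) := by
      rw [← hphq, pow_succ]
      ring
    have g1 : cc T J M₀ K (T.p v) ≤ 2 * lo T J M₀ K v + rho T J (T.p v) := by omega
    have g2 : 2 * hi T J M₀ K v ≤ cc T J M₀ K (T.p v) + rho T J (T.p v) := by omega
    have g3 := Nat.mul_le_mul_left (2 ^ ph T J (T.p v)) g1
    have g4 := Nat.mul_le_mul_left (2 ^ ph T J (T.p v)) g2
    rw [hpow]
    constructor <;> nlinarith

/-- the territories of the vertices of the same phase are disjoint -/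
theorem terr (hP : Par T J M₀ K) : ∀ k, ∀ v w : V, v ≠ T.r → w ≠ T.r → v ≠ w → ph T J v = k →
    ph T J w = k → cc T J M₀ K v + rho T J v + rho T J w < cc T J M₀ K w ∨
      cc T J M₀ K w + rho T J w + rho T J v < cc T J M₀ K v := by
  intro k
  induction k with
  | zero =>
    have key : ∀ v w : V, v ≠ T.r → w ≠ T.r → v < w → ph T J v = 0 → ph T J w = 0 →
        cc T J M₀ K v + rho T J v + rho T J w < cc T J M₀ K w := by
      intro v w hv hw hlt h1 h2
      rw [top_eq hv h1, top_eq hw h2]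
      have := pos_lt (M₀ := M₀) (K := K) (mem_tops.2 ⟨hv, h1⟩) hlt
      have := hP.hK1
      omega
    intro v w hv hw hne h1 h2
    rcases lt_or_gt_of_ne hne with h | h
    · exact Or.inl (key v w hv hw h h1 h2)
    · exact Or.inr (key w v hw hv h h2 h1)
  | succ k ih =>
    intro v w hv hw hne h1 h2
    obtain ⟨a, t, e1, e2, e3, e4, e5, e6⟩ := zone hP hv (by omega)
    obtain ⟨a', t', e1', e2', e3', e4', e5', e6'⟩ := zone hP hw (by omega)
    have hcv : cc T J M₀ K v = a + 1 + t ∨ cc T J M₀ K v = a - t := by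
      rcases Nat.mod_two_eq_zero_or_one (idx T v) with hi' | hi'
      · exact Or.inr (e5 hi')
      · exact Or.inl (e4 hi')
    have hcw : cc T J M₀ K w = a' + 1 + t' ∨ cc T J M₀ K w = a' - t' := by
      rcases Nat.mod_two_eq_zero_or_one (idx T w) with hi' | hi'
      · exact Or.inr (e5' hi')
      · exact Or.inl (e4' hi')
    by_cases hq : T.p v = T.p w
    · have haa : a = a' := by
        rw [hq] at e1
        omega
      subst haa
      rcases lt_or_gt_of_ne hne with h | h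
      · have h3 := off_lt (J := J) hw hq h
        omega
      · have h3 := off_lt (J := J) hv hq.symm h
        omega
    · obtain ⟨q1, q2⟩ := ph_parent hv (J := J) (by omega)
      obtain ⟨q1', q2'⟩ := ph_parent hw (J := J) (by omega)
      have h3 := ih (T.p v) (T.p w) q1 q1' hq (by omega) (by omega)
      omega

/-- relative position of the pairs of labels of two vertices -/
theorem rel (hP : Par T J M₀ K) {v w : V} (hv : v ≠ T.r) (hw : w ≠ T.r) (hne : v ≠ w) :
    hi T J M₀ K w < lo T J M₀ K v ∨ hi T J M₀ K v < lo T J M₀ K w ∨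
    (1 ≤ ph T J v ∧ T.p v = T.p w ∧ 1 ≤ ph T J w ∧
      ((v < w ∧ lo T J M₀ K v < lo T J M₀ K w ∧ hi T J M₀ K w < hi T J M₀ K v) ∨
       (w < v ∧ lo T J M₀ K w < lo T J M₀ K v ∧ hi T J M₀ K v < hi T J M₀ K w))) := by
  have hscale : ∀ v w : V, v ≠ T.r → w ≠ T.r → ph T J v < ph T J w → hi T J M₀ K w < lo T J M₀ K v := by
    intro v w hv hw hlt
    by_contra hcon
    obtain ⟨h1, -⟩ := lohi_scale hP hv
    obtain ⟨-, h2⟩ := lohi_scale hP hw
    obtain ⟨d, hd⟩ : ∃ d, ph T J w = ph T J v + 1 + d := ⟨ph T J w - ph T J v - 1, by omega⟩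
    rw [hd, pow_add, pow_succ] at h2
    have h3 : 1 ≤ 2 ^ d := Nat.one_le_two_pow
    have h4 : lo T J M₀ K v ≤ hi T J M₀ K w := by omega
    have h5 : 2 ^ ph T J v * lo T J M₀ K v ≤ 2 ^ ph T J v * hi T J M₀ K w := Nat.mul_le_mul_left _ h4
    have h6 : 2 ^ ph T J v * hi T J M₀ K w * 1 ≤ 2 ^ ph T J v * hi T J M₀ K w * 2 ^ d :=
      Nat.mul_le_mul_left _ h3
    nlinarith
  rcases lt_trichotomy (ph T J v) (ph T J w) with h | h | h
  · exact Or.inl (hscale v w hv hw h)
  · rcases Nat.eq_zero_or_pos (ph T J v) with h0 | h0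
    · obtain ⟨a1, a2, a3, -⟩ := top_lo hP hv h0
      obtain ⟨b1, b2, b3, -⟩ := top_lo hP hw (by omega)
      rcases lt_or_gt_of_ne hne with h' | h'
      · have := pos_lt (M₀ := M₀) (K := K) (mem_tops.2 ⟨hv, h0⟩) h'
        omega
      · have := pos_lt (M₀ := M₀) (K := K) (mem_tops.2 ⟨hw, show ph T J w = 0 by omega⟩) h'
        omega
    · obtain ⟨a, t, e1, e2, e3, e4, e5, -, -, e6⟩ := zone_lo hP hv h0
      obtain ⟨a', t', e1', e2', e3', e4', e5', -, -, e6'⟩ := zone_lo hP hw (by omega)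
      by_cases hq : T.p v = T.p w
      · have haa : a = a' := by
          rw [hq] at e1
          omega
        subst haa
        refine Or.inr (Or.inr ⟨h0, hq, by omega, ?_⟩)
        rcases lt_or_gt_of_ne hne with h' | h'
        · have h3 := off_lt (J := J) hw hq h'
          exact Or.inl ⟨h', by omega, by omega⟩
        · have h3 := off_lt (J := J) hv hq.symm h'
          exact Or.inr ⟨h', by omega, by omega⟩
      · obtain ⟨q1, q2⟩ := ph_parent hv (J := J) (by omega)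
        obtain ⟨q1', q2'⟩ := ph_parent hw (J := J) (by omega)
        have h3 := terr hP _ (T.p v) (T.p w) q1 q1' hq rfl (by omega)
        omega
  · exact Or.inr (Or.inl (hscale w v hw hv h))

end SSq
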