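import Pool.Agent.Lib.MP_8a819d_co.S3

/-!
# MP_8a819d_co: the numbering has the rank property
-/

set_option autoImplicit false
set_option linter.unusedSectionVars false
set_option linter.unusedVariables false

namespace SSq

open Finset

variable {V : Type} [Fintype V] [LinearOrder V] {T : Rt V} {J M₀ K : ℕ}

theorem mem_ch {q w : V} : w ∈ ch T q ↔ w ≠ T.r ∧ T.p w = q := by
  unfold ch
  simp only [mem_filter, mem_univ, true_and]

theorem ph_sib {v w : V} (hv : v ≠ T.r) (hw : w ≠ T.r) (hq : T.p v = T.p w) : ph T J v = ph T J w := by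
  have h1 := T.dp v hv
  have h2 := T.dp w hw
  unfold ph
  rw [← h1, ← h2, hq]

theorem sib_nest (hP : Par T J M₀ K) {v w : V} (hv : v ≠ T.r) (hw : w ≠ T.r) (hph : 1 ≤ ph T J v)
    (hq : T.p v = T.p w) (hlt : v < w) :
    lo T J M₀ K v < lo T J M₀ K w ∧ lo T J M₀ K w < hi T J M₀ K w ∧ hi T J M₀ K w < hi T J M₀ K v := by
  obtain ⟨a, t, e1, e2, e3, e4, e5, -, -, e6⟩ := zone_lo hP hv hph
  obtain ⟨a', t', e1', e2', e3', e4', e5', -, -, e6'⟩ := zone_lo hP hw (by rw [← ph_sib hv hw hq]; exact hph)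
  have haa : a = a' := by
    rw [hq] at e1
    omega
  subst haa
  have h3 := off_lt (J := J) hw hq hlt
  omega

theorem cross_lo (hP : Par T J M₀ K) {v : V} (hv : v ≠ T.r) (hph : 1 ≤ ph T J v) :
    ((univ.erase T.r).filter fun w => lo T J M₀ K w ≤ lo T J M₀ K v ∧ lo T J M₀ K v < hi T J M₀ K w) =
      (ch T (T.p v)).filter (· ≤ v) := by
  ext w
  simp only [mem_filter, mem_erase, mem_univ, and_true, mem_ch]
  have hlv := lo_lt_hi hP hv
  constructor
  · rintro ⟨hw, h1, h2⟩
    by_cases hne : v = w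
    · subst hne
      exact ⟨⟨hw, rfl⟩, le_rfl⟩
    · rcases rel hP hv hw hne with h | h | ⟨-, h3, -, h4 | h4⟩
      · omega
      · omega
      · omega
      · exact ⟨⟨hw, h3.symm⟩, h4.1.le⟩
  · rintro ⟨⟨hw, h3⟩, h4⟩
    refine ⟨hw, ?_⟩
    rcases eq_or_lt_of_le h4 with rfl | h5
    · exact ⟨le_rfl, hlv⟩
    · have h6 := sib_nest hP hw hv (by rw [ph_sib hw hv h3]; exact hph) h3 h5
      omega

theorem cross_hi (hP : Par T J M₀ K) {v : V} (hv : v ≠ T.r) (hph : 1 ≤ ph T J v) :
    ((univ.erase T.r).filter fun w => lo T J M₀ K w ≤ hi T J M₀ K v ∧ hi T J M₀ K v < hi T J M₀ K w) =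
      (ch T (T.p v)).filter (· < v) := by
  ext w
  simp only [mem_filter, mem_erase, mem_univ, and_true, mem_ch]
  have hlv := lo_lt_hi hP hv
  constructor
  · rintro ⟨hw, h1, h2⟩
    by_cases hne : v = w
    · subst hne
      omega
    · rcases rel hP hv hw hne with h | h | ⟨-, h3, -, h4 | h4⟩
      · omega
      · omega
      · omega
      · exact ⟨⟨hw, h3.symm⟩, h4.1⟩
  · rintro ⟨⟨hw, h3⟩, h4⟩
    refine ⟨hw, ?_⟩
    have h6 := sib_nest hP hw hv (by rw [ph_sib hw hv h3]; exact hph) h3 h4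
    omega

theorem cross_lo_top (hP : Par T J M₀ K) {v : V} (hv : v ≠ T.r) (hph : ph T J v = 0) :
    ((univ.erase T.r).filter fun w => lo T J M₀ K w ≤ lo T J M₀ K v ∧ lo T J M₀ K v < hi T J M₀ K w) =
      {v} := by
  ext w
  simp only [mem_filter, mem_erase, mem_univ, and_true, mem_singleton]
  have hlv := lo_lt_hi hP hv
  constructor
  · rintro ⟨hw, h1, h2⟩
    by_contra hne
    rcases rel hP hv hw (Ne.symm hne) with h | h | ⟨h, -⟩
    · omega
    · omega
    · omega
  · rintro rfl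
    exact ⟨hv, le_rfl, hlv⟩

theorem cross_hi_top (hP : Par T J M₀ K) {v : V} (hv : v ≠ T.r) (hph : ph T J v = 0) :
    ((univ.erase T.r).filter fun w => lo T J M₀ K w ≤ hi T J M₀ K v ∧ hi T J M₀ K v < hi T J M₀ K w) =
      ∅ := by
  rw [eq_empty_iff_forall_notMem]
  intro w hw'
  simp only [mem_filter, mem_erase, mem_univ, and_true] at hw'
  obtain ⟨hw, h1, h2⟩ := hw'
  have hlv := lo_lt_hi hP hv
  by_cases hne : v = w
  · subst hne
    omega
  · rcases rel hP hv hw hne with h | h | ⟨h, -⟩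
    · omega
    · omega
    · omega

theorem idx_pred {v : V} (hv : v ≠ T.r) : ((ch T (T.p v)).filter (· < v)).card + 1 = idx T v := by
  unfold idx
  have h1 : (ch T (T.p v)).filter (· ≤ v) = insert v ((ch T (T.p v)).filter (· < v)) := by
    ext w
    simp only [mem_filter, mem_insert, mem_ch]
    constructor
    · rintro ⟨h2, h3⟩
      rcases eq_or_lt_of_le h3 with rfl | h4
      · exact Or.inl rfl
      · exact Or.inr ⟨h2, h4⟩
    · rintro (rfl | ⟨h2, h3⟩)
      · exact ⟨⟨hv, rfl⟩, le_rfl⟩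
      · exact ⟨h2, h3.le⟩
  rw [h1, card_insert_of_notMem]
  intro h
  exact lt_irrefl _ (mem_filter.1 h).2

/-- the set of all labels -/
theorem used_eq (hP : Par T J M₀ K) : used T univ (cc T J M₀ K) =
    insert 1 ((univ.erase T.r).image (lo T J M₀ K) ∪ (univ.erase T.r).image (hi T J M₀ K)) := by
  unfold used
  have h1 : ∀ v : V, (lo T J M₀ K v = cc T J M₀ K v ∧ hi T J M₀ K v = ad (cc T J M₀ K v) (cc T J M₀ K (T.p v))) ∨
      (hi T J M₀ K v = cc T J M₀ K v ∧ lo T J M₀ K v = ad (cc T J M₀ K v) (cc T J M₀ K (T.p v))) := by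
    intro v
    unfold lo hi
    omega
  ext x
  simp only [mem_union, mem_image, mem_univ, true_and, mem_erase, and_true, mem_insert]
  constructor
  · rintro (⟨v, rfl⟩ | ⟨v, hv, rfl⟩)
    · by_cases hv : v = T.r
      · subst hv
        exact Or.inl (cc_r _ _)
      · rcases h1 v with h | h
        · exact Or.inr (Or.inl ⟨v, hv, h.1⟩)
        · exact Or.inr (Or.inr ⟨v, hv, h.1⟩)
    · rcases h1 v with h | h
      · exact Or.inr (Or.inr ⟨v, hv, h.2⟩)
      · exact Or.inr (Or.inl ⟨v, hv, h.2⟩)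
  · rintro (rfl | ⟨v, hv, rfl⟩ | ⟨v, hv, rfl⟩)
    · exact Or.inl ⟨T.r, cc_r _ _⟩
    · rcases h1 v with h | h
      · exact Or.inl ⟨v, h.1.symm⟩
      · exact Or.inr ⟨v, hv, h.2.symm⟩
    · rcases h1 v with h | h
      · exact Or.inr ⟨v, hv, h.2.symm⟩
      · exact Or.inl ⟨v, h.1.symm⟩

theorem lo_ge (hP : Par T J M₀ K) {v : V} (hv : v ≠ T.r) : 2 ≤ lo T J M₀ K v := by
  have h1 := (lohi_scale hP hv).1
  have h2 := hP.hM2
  have h3 : 2 ^ ph T J v ≤ 2 ^ J := Nat.pow_le_pow_right (by norm_num) (ph_le v)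
  by_contra hcon
  have h4 : 2 ^ ph T J v * lo T J M₀ K v ≤ 2 ^ ph T J v * 1 := Nat.mul_le_mul_left _ (by omega)
  omega

theorem lo_inj (hP : Par T J M₀ K) : Set.InjOn (lo T J M₀ K) (univ.erase T.r : Finset V) := by
  intro v hv w hw h
  have hv' : v ≠ T.r := (mem_erase.1 (mem_coe.1 hv)).1
  have hw' : w ≠ T.r := (mem_erase.1 (mem_coe.1 hw)).1
  by_contra hne
  have h1 := lo_lt_hi hP hv'
  have h2 := lo_lt_hi hP hw'
  rcases rel hP hv' hw' hne with h3 | h3 | ⟨-, -, -, h4 | h4⟩
  · omega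
  · omega
  · omega
  · omega

theorem hi_inj (hP : Par T J M₀ K) : Set.InjOn (hi T J M₀ K) (univ.erase T.r : Finset V) := by
  intro v hv w hw h
  have hv' : v ≠ T.r := (mem_erase.1 (mem_coe.1 hv)).1
  have hw' : w ≠ T.r := (mem_erase.1 (mem_coe.1 hw)).1
  by_contra hne
  have h1 := lo_lt_hi hP hv'
  have h2 := lo_lt_hi hP hw'
  rcases rel hP hv' hw' hne with h3 | h3 | ⟨-, -, -, h4 | h4⟩
  · omega
  · omega
  · omega
  · omega

theorem lo_ne_hi (hP : Par T J M₀ K) {v w : V} (hv : v ≠ T.r) (hw : w ≠ T.r) :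
    lo T J M₀ K v ≠ hi T J M₀ K w := by
  intro h
  have h1 := lo_lt_hi hP hv
  have h2 := lo_lt_hi hP hw
  by_cases hne : v = w
  · subst hne
    omega
  · rcases rel hP hv hw hne with h3 | h3 | ⟨-, -, -, h4 | h4⟩
    · omega
    · omega
    · omega
    · omega

theorem disj_lohi (hP : Par T J M₀ K) :
    Disjoint ((univ.erase T.r).image (lo T J M₀ K)) ((univ.erase T.r).image (hi T J M₀ K)) := by
  rw [disjoint_left]
  intro x hx hx'
  rw [mem_image] at hx hx'
  obtain ⟨v, hv, rfl⟩ := hx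
  obtain ⟨w, hw, h⟩ := hx'
  exact lo_ne_hi hP (mem_erase.1 hv).1 (mem_erase.1 hw).1 h.symm

theorem one_notMem (hP : Par T J M₀ K) :
    1 ∉ (univ.erase T.r).image (lo T J M₀ K) ∪ (univ.erase T.r).image (hi T J M₀ K) := by
  intro h
  simp only [mem_union, mem_image, mem_erase, mem_univ, and_true] at h
  rcases h with ⟨v, hv, h⟩ | ⟨v, hv, h⟩
  · have := lo_ge hP hv
    omega
  · have := lo_ge hP hv
    have := lo_lt_hi hP hv
    omega

theorem used_card (hP : Par T J M₀ K) : (used T univ (cc T J M₀ K)).card + 1 = 2 * Fintype.card V := by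
  rw [used_eq hP, card_insert_of_notMem (one_notMem hP), card_union_of_disjoint (disj_lohi hP),
    card_image_of_injOn (lo_inj hP), card_image_of_injOn (hi_inj hP), card_erase_of_mem (mem_univ _),
    card_univ]
  have : 1 ≤ Fintype.card V := Fintype.card_pos_iff.2 ⟨T.r⟩
  omega

theorem count (hP : Par T J M₀ K) {x : ℕ} (hx : 1 ≤ x) :
    ((used T univ (cc T J M₀ K)).filter (· ≤ x)).card % 2 =
      (1 + ((univ.erase T.r).filter fun w => lo T J M₀ K w ≤ x ∧ x < hi T J M₀ K w).card) % 2 := by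
  rw [used_eq hP, filter_insert, if_pos hx, filter_union, card_insert_of_notMem, card_union_of_disjoint]
  · have h1 : ∀ g : V → ℕ, ((univ.erase T.r).image g).filter (· ≤ x) =
        ((univ.erase T.r).filter fun w => g w ≤ x).image g := by
      intro g
      rw [filter_image]
    rw [h1, h1, card_image_of_injOn, card_image_of_injOn]
    · have h2 : ((univ.erase T.r).filter fun w => lo T J M₀ K w ≤ x) =
          ((univ.erase T.r).filter fun w => hi T J M₀ K w ≤ x) ∪
            ((univ.erase T.r).filter fun w => lo T J M₀ K w ≤ x ∧ x < hi T J M₀ K w) := by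
        ext w
        simp only [mem_filter, mem_union, mem_erase, mem_univ, and_true]
        constructor
        · rintro ⟨hw, h3⟩
          by_cases h4 : hi T J M₀ K w ≤ x
          · exact Or.inl ⟨hw, h4⟩
          · exact Or.inr ⟨hw, h3, by omega⟩
        · rintro (⟨hw, h3⟩ | ⟨hw, h3, -⟩)
          · exact ⟨hw, (lo_lt_hi hP hw).le.trans h3⟩
          · exact ⟨hw, h3⟩
      rw [h2, card_union_of_disjoint]
      · omega
      · rw [disjoint_left]
        intro w hw hw'
        have h3 := (mem_filter.1 hw).2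
        have h4 := (mem_filter.1 hw').2.2
        omega
    · exact (hi_inj hP).mono (by
        intro w hw
        exact mem_coe.2 (mem_filter.1 (mem_coe.1 hw)).1)
    · exact (lo_inj hP).mono (by
        intro w hw
        exact mem_coe.2 (mem_filter.1 (mem_coe.1 hw)).1)
  · exact disjoint_filter_filter (disj_lohi hP)
  · intro h
    refine one_notMem hP ?_
    rw [← filter_union] at h
    exact (mem_filter.1 h).1

theorem rank_lo (hP : Par T J M₀ K) {v : V} (hv : v ≠ T.r) :
    (1 + ((univ.erase T.r).filter fun w => lo T J M₀ K w ≤ lo T J M₀ K v ∧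
      lo T J M₀ K v < hi T J M₀ K w).card) % 2 = lo T J M₀ K v % 2 := by
  have hc1 := cc_odd hP v
  have hc2 := cc_odd hP (T.p v)
  rcases Nat.eq_zero_or_pos (ph T J v) with h0 | h0
  · rw [cross_lo_top hP hv h0, card_singleton]
    obtain ⟨-, -, -, -, h1⟩ := top_lo hP hv h0
    rw [h1]
    unfold ad
    omega
  · rw [cross_lo hP hv h0]
    obtain ⟨a, t, e1, e2, e3, e4, e5, e6, e7, -⟩ := zone_lo hP hv h0
    show (1 + idx T v) % 2 = _
    rcases Nat.mod_two_eq_zero_or_one (idx T v) with hi' | hi'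
    · rw [← (e7 hi').1]
      omega
    · rw [← (e6 hi').2]
      unfold ad
      omega

theorem rank_hi (hP : Par T J M₀ K) {v : V} (hv : v ≠ T.r) :
    (1 + ((univ.erase T.r).filter fun w => lo T J M₀ K w ≤ hi T J M₀ K v ∧
      hi T J M₀ K v < hi T J M₀ K w).card) % 2 = hi T J M₀ K v % 2 := by
  have hc1 := cc_odd hP v
  have hc2 := cc_odd hP (T.p v)
  rcases Nat.eq_zero_or_pos (ph T J v) with h0 | h0
  · rw [cross_hi_top hP hv h0, card_empty]
    obtain ⟨-, -, -, h1, -⟩ := top_lo hP hv h0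
    rw [h1]
    omega
  · rw [cross_hi hP hv h0]
    obtain ⟨a, t, e1, e2, e3, e4, e5, e6, e7, -⟩ := zone_lo hP hv h0
    have h2 := idx_pred hv
    rcases Nat.mod_two_eq_zero_or_one (idx T v) with hi' | hi'
    · rw [← (e7 hi').2]
      unfold ad
      omega
    · rw [← (e6 hi').1]
      omega

/-- the numbering `cc` has the rank property -/
theorem St_cc (hP : Par T J M₀ K) : St T univ (cc T J M₀ K) (2 * M₀ - 1) := by
  have hM2 := hP.hM2
  have hJ : 1 ≤ 2 ^ J := Nat.one_le_two_pow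
  constructor
  · exact mem_univ _
  · intro v _
    exact mem_univ _
  · exact cc_r _ _
  · rw [card_univ]
    exact used_card hP
  · intro x hx
    rw [used_eq hP] at hx
    simp only [mem_insert, mem_union, mem_image, mem_erase, mem_univ, and_true] at hx
    have hlt : ∀ v : V, v ≠ T.r → hi T J M₀ K v < 2 * M₀ := by
      intro v hv
      have h1 := (lohi_scale hP hv).2
      have h2 : 1 ≤ 2 ^ ph T J v := Nat.one_le_two_pow
      nlinarith
    rcases hx with rfl | ⟨v, hv, rfl⟩ | ⟨v, hv, rfl⟩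
    · omega
    · have h1 := hlt v hv
      have h2 := lo_ge hP hv
      have h3 := lo_lt_hi hP hv
      omega
    · have h1 := hlt v hv
      have h2 := lo_ge hP hv
      have h3 := lo_lt_hi hP hv
      omega
  · omega
  · intro x hx
    have hx' := hx
    rw [used_eq hP] at hx
    simp only [mem_insert, mem_union, mem_image, mem_erase, mem_univ, and_true] at hx
    rcases hx with rfl | ⟨v, hv, rfl⟩ | ⟨v, hv, rfl⟩
    · rw [count hP le_rfl]
      have h1 : ((univ.erase T.r).filter fun w => lo T J M₀ K w ≤ 1 ∧ 1 < hi T J M₀ K w) = ∅ := by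
        rw [eq_empty_iff_forall_notMem]
        intro w hw
        simp only [mem_filter, mem_erase, mem_univ, and_true] at hw
        have := lo_ge hP hw.1
        omega
      rw [h1, card_empty]
    · rw [count hP (by have := lo_ge hP hv; omega)]
      exact rank_lo hP hv
    · rw [count hP (by have := lo_ge hP hv; have := lo_lt_hi hP hv; omega)]
      exact rank_hi hP hv

/-- every small tree has a numbering with odd labels of polynomial size and the rank property -/
theorem exists_small (T : Rt V) : ∃ (f : V → ℕ) (M : ℕ), St T univ f M ∧ (∀ v, f v % 2 = 1) ∧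
    (∀ v, f v ≤ 1024 * Fintype.card V ^ 3) ∧ M ≤ 1024 * Fintype.card V ^ 3 := by
  set N := Fintype.card V with hN
  have hN1 : 1 ≤ N := Fintype.card_pos_iff.2 ⟨T.r⟩
  obtain ⟨J, hJ1, hJ2⟩ : ∃ J, 4 * N ≤ 2 ^ J ∧ 2 ^ J ≤ 8 * N := by
    refine ⟨Nat.log 2 (4 * N) + 1, ?_, ?_⟩
    · exact (Nat.lt_pow_succ_log_self (by norm_num) _).le
    · have h1 := Nat.pow_log_le_self 2 (x := 4 * N) (by omega)
      rw [pow_succ]
      omega
  have h4 : 4 ^ J = 2 ^ J * 2 ^ J := by
    rw [← mul_pow]
    norm_num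
  set P := 2 ^ J with hPdef
  have hP1 : 1 ≤ P := Nat.one_le_two_pow
  have hpar : Par T J (8 * (P * P) * N) (16 * P * N) := by
    constructor
    · have h1 : ∀ w ∈ tops T J, 16 * P * N + 2 * rho T J w + 2 ≤ 16 * P * N + 2 * (P * P) * (seg T J w).card := by
        intro w hw
        obtain ⟨hw1, hw2⟩ := mem_tops.1 hw
        have h2 : 1 ≤ (seg T J w).card := card_pos.2 ⟨w, self_mem_seg hw1⟩
        obtain ⟨s, hs⟩ : ∃ s, (seg T J w).card = s + 1 := ⟨(seg T J w).card - 1, by omega⟩
        unfold rho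
        rw [hw2, Nat.sub_zero, h4, hs, Nat.add_sub_cancel]
        have h3 : 1 ≤ P * P := Nat.mul_le_mul hP1 hP1
        nlinarith
      calc ∑ w ∈ tops T J, (16 * P * N + 2 * rho T J w + 2)
          ≤ ∑ w ∈ tops T J, (16 * P * N + 2 * (P * P) * (seg T J w).card) := sum_le_sum h1
        _ = (tops T J).card * (16 * P * N) + 2 * (P * P) * ∑ w ∈ tops T J, (seg T J w).card := by
            rw [sum_add_distrib, sum_const, smul_eq_mul, mul_sum]
        _ ≤ N * (16 * P * N) + 2 * (P * P) * N := by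
            refine Nat.add_le_add (Nat.mul_le_mul_right _ (card_le_univ _)) (Nat.mul_le_mul_left _ seg_tops)
        _ ≤ 8 * (P * P) * N := by
            have h5 : P * N * (4 * N) ≤ P * N * P := Nat.mul_le_mul_left _ hJ1
            nlinarith
    · rw [← hPdef]
      nlinarith
    · have : 8 * (P * P) * N = 2 * (4 * (P * P) * N) := by ring
      omega
    · have : 16 * P * N = 2 * (8 * P * N) := by ring
      omega
    · have : 1 ≤ P * N := Nat.mul_le_mul hP1 hN1
      nlinarith
    · rw [← hPdef]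
      have h5 : P * 1 ≤ P * (P * N) := Nat.mul_le_mul_left _ (Nat.mul_le_mul hP1 hN1)
      nlinarith
  have hM : 2 * (8 * (P * P) * N) ≤ 1024 * N ^ 3 := by
    have h5 : P * P ≤ (8 * N) * (8 * N) := Nat.mul_le_mul hJ2 hJ2
    have h6 : P * P * N ≤ (8 * N) * (8 * N) * N := Nat.mul_le_mul_right _ h5
    nlinarith
  refine ⟨_, _, St_cc hpar, cc_odd hpar, ?_, by omega⟩
  intro v
  by_cases hv : v = T.r
  · subst hv
    rw [cc_r]
    have : 1 ≤ N ^ 3 := Nat.one_le_pow _ _ hN1
    omega
  · have := cc_lt hpar hv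
    omega

end SSq
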